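import Pool.Agent.H17.FR.Targets
import Pool.Agent.H15.SC.TargetsX
import Pool.Agent.H16.SC.Basic

/-!
Finite rank of the Néron-Severi space (MP_f2954d_ag, block B7): targets on the variety `X` and the
abstract conclusion.
-/

namespace FR

open SC SCB

/-- GLP: a generating system of a divisor is locally principal -/
def T_GLP : Prop := ∀ (K : Type) [Field K] [Algebra ℂ K] (N n : ℕ) (w : Fin (N + 1) → K),
  IsSmoothProj w n → ∀ (D : DivZ w) (S : Sys K), GenSys D S →
  S.Nz ∧ LP (Submodule.span ℂ (Set.range w)) S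

/-- FDX: the matrix of intersection numbers of globally generated divisors has bounded rank -/
def T_FDX : Prop := ∀ (K : Type) [Field K] [Algebra ℂ K] (N m : ℕ) (w : Fin (N + 1) → K),
  IsSmoothProj w (m + 2) → ∀ (J : Type) [Fintype J] (H : J → Sys K), Fintype.card J = m →
  (∀ j, (H j).Nz) → ∃ r : ℕ, ∀ (D E : Fin (r + 1) → DivZ w) (S T : Fin (r + 1) → Sys K),
    (∀ i, GenSys (D i) (S i)) → (∀ j, GenSys (E j) (T j)) →
    (Matrix.of fun i j => (Idx (Sum.elim (fun _ : Unit => S i)
      (Sum.elim (fun _ : Unit => T j) H)) ℂ : ℤ)).det = 0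

/-- HIK: Hodge index argument: a class which is orthogonal to `A ^ (n - 2)` vanishes -/
def T_HIK : Prop := ∀ (N P : Type) [AddCommGroup N] [Module ℝ N] (m : ℕ) (X : Geo N P (m + 2))
  (A : N), A ∈ X.G → ∀ x : N, (∀ y, X.I (x ::ₘ y ::ₘ Multiset.replicate m A) = 0) → x = 0

/-- GFD: the space of classes is finite dimensional -/
def T_GFD : Prop := ∀ (N P : Type) [AddCommGroup N] [Module ℝ N] (m r : ℕ) (X : Geo N P (m + 2))
  (A : N), A ∈ X.G → (∀ x y : Fin (r + 1) → N, (∀ i, x i ∈ X.G) → (∀ j, y j ∈ X.G) →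
    (Matrix.of fun i j => X.I (x i ::ₘ y j ::ₘ Multiset.replicate m A)).det = 0) →
  FiniteDimensional ℝ N

end FR
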