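import Pool.Agent.H17.FR.Targets
import Pool.Agent.H64.SC.Api

/-!
Module DET of block B7 (MP_f2954d_ag): the matrix of intersection numbers has bounded rank.
-/

namespace FR

open SC

/-- the reordering of the index set -/
def reord (J : Type) : (J ⊕ (Unit ⊕ Unit)) ≃ (Unit ⊕ (Unit ⊕ J)) where
  toFun
    | Sum.inl j => Sum.inr (Sum.inr j)
    | Sum.inr (Sum.inl _) => Sum.inr (Sum.inl ())
    | Sum.inr (Sum.inr _) => Sum.inl ()
  invFun
    | Sum.inl _ => Sum.inr (Sum.inr ())
    | Sum.inr (Sum.inl _) => Sum.inr (Sum.inl ())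
    | Sum.inr (Sum.inr j) => Sum.inl j
  left_inv := by rintro (j | ⟨⟩ | ⟨⟩) <;> rfl
  right_inv := by rintro (⟨⟩ | ⟨⟩ | j) <;> rfl

theorem det_proof (hFR : T_FR) (hLPU : T_LPU) (hG1a : T_G1a) (hG2r : T_G2r) (hG3i : T_G3i)
    (hG3t : T_G3t) (hM1 : T_M1) : T_DET := by
  intro k K _ _ _ _ _ J _ H W _ hW hH htr
  have hgen := hG1a K J H hH
  -- reordering
  have hre : ∀ s t : Sys K, s.Nz → t.Nz →
      Idx (Sum.elim (fun _ : Unit => s) (Sum.elim (fun _ : Unit => t) H)) k =
        Idx (Sum.elim H (Sum.elim (fun _ : Unit => t) (fun _ : Unit => s))) k := by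
    intro s t hs ht
    have h1 := hG2r k K (Unit ⊕ (Unit ⊕ J)) (J ⊕ (Unit ⊕ Unit))
      (Sum.elim (fun _ : Unit => s) (Sum.elim (fun _ : Unit => t) H)) (reord J) (by
        rintro (_ | _ | j)
        · exact hs
        · exact ht
        · exact hH j)
    rw [← h1]
    congr 1
    funext j
    rcases j with j | ⟨⟩ | ⟨⟩ <;> rfl
  have hnzts : ∀ s t : Sys K, s.Nz → t.Nz →
      ∀ j, (Sum.elim (fun _ : Unit => t) (fun _ : Unit => s) j : Sys K).Nz := by
    rintro s t hs ht (_ | _)
    · exact ht
    · exact hs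
  by_cases hU : AlgebraicIndependent k (genU H)
  swap
  · refine ⟨0, fun s t hs ht => ?_⟩
    rw [Matrix.det_fin_one, Matrix.of_apply, hre _ _ (hs 0).1 (ht 0),
      (hG3i k K (Gen H) J (Unit ⊕ Unit) H _ (genU H) hH (hnzts _ _ (hs 0).1 (ht 0)) hgen).2 hU]
    rfl
  let k' := kU k (genU H)
  let K' := Gen H
  have hch : CharZero k' := charZero_of_injective_algebraMap (algebraMap k k').injective
  obtain ⟨hess, _, htr'⟩ := hG3t k K K' J H (genU H) (Fintype.card J + 2) hH hgen hU htr
  have htr2 : Algebra.trdeg k' K' = 2 := by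
    rw [htr']
    have : Fintype.card J + 2 - Fintype.card J = 2 := by omega
    rw [this]
    rfl
  let W' : Submodule k' K' := Submodule.span k' (algebraMap K K' '' (W : Set K))
  have hW' : W' ≠ ⊥ := by
    obtain ⟨x, hx, hx0⟩ := Submodule.exists_mem_ne_zero_of_ne_bot hW
    intro h
    have h1 : algebraMap K K' x ∈ W' := Submodule.subset_span ⟨x, hx, rfl⟩
    rw [h, Submodule.mem_bot, map_eq_zero] at h1
    exact hx0 h1
  have hfW' : Module.Finite k' W' := by
    obtain ⟨m, b, hb⟩ := Submodule.fg_iff_exists_fin_generating_family.1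
      (Module.Finite.iff_fg.1 (inferInstance : Module.Finite k W))
    have h1 : W' ≤ Submodule.span k' (Set.range fun i => algebraMap K K' (b i)) := by
      rw [Submodule.span_le]
      rintro _ ⟨x, hx, rfl⟩
      rw [SetLike.mem_coe, ← hb] at hx
      rw [SetLike.mem_coe]
      induction hx using Submodule.span_induction with
      | mem x hx =>
        obtain ⟨i, rfl⟩ := hx
        exact Submodule.subset_span ⟨i, rfl⟩
      | zero => rw [map_zero]; exact Submodule.zero_mem _
      | add x y _ _ hx hy => rw [map_add]; exact Submodule.add_mem _ hx hy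
      | smul c x _ hx =>
        have : algebraMap K K' (c • x) = (algebraMap k k' c) • algebraMap K K' x := by
          rw [Algebra.smul_def, map_mul, Algebra.smul_def,
            ← IsScalarTower.algebraMap_apply k k' K', ← IsScalarTower.algebraMap_apply k K K']
        rw [this]
        exact Submodule.smul_mem _ _ hx
    have h2 : Module.Finite k'
        (Submodule.span k' (Set.range fun i => algebraMap K K' (b i))) :=
      Module.Finite.span_of_finite k' (Set.finite_range _)
    exact Module.Finite.of_injective (Submodule.inclusion h1) (Submodule.inclusion_injective h1)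
  obtain ⟨r, hr⟩ := hFR k' K' W' htr2.le hW'
  refine ⟨r, fun s t hs ht => ?_⟩
  obtain ⟨a, ha, hcurve⟩ := hr (fun l => (s l).up K') (fun l =>
    hLPU k K k' K' W (s l) (hs l).2)
  have key : ∀ j, ∑ i, a i * ((Idx (Sum.elim (fun _ : Unit => s i)
      (Sum.elim (fun _ : Unit => t j) H)) k : ℤ) : k') = 0 := by
    intro j
    have hT : ((t j).up K').Nz := Sys.up_nz K' (ht j)
    have hT' : ∀ _ : Unit, ((t j).up K').Nz := fun _ => hT
    have hgen' := hG1a K' Unit (fun _ => (t j).up K') hT'
    have hidx : ∀ i, Idx (Sum.elim (fun _ : Unit => s i) (Sum.elim (fun _ : Unit => t j) H)) k =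
        Idx (Sum.elim (fun _ : Unit => (t j).up K') (fun _ : Unit => (s i).up K')) k' := by
      intro i
      rw [hre _ _ (hs i).1 (ht j),
        (hG3i k K K' J (Unit ⊕ Unit) H _ (genU H) hH (hnzts _ _ (hs i).1 (ht j)) hgen).1 hU]
      congr 1
      funext z
      rcases z with _ | _ <;> rfl
    by_cases hU' : AlgebraicIndependent k' (genU fun _ : Unit => (t j).up K')
    · let L := Gen fun _ : Unit => (t j).up K'
      let kL := kU k' (genU fun _ : Unit => (t j).up K')
      obtain ⟨hessL, _, htrL⟩ := hG3t k' K' L Unit (fun _ => (t j).up K')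
        (genU fun _ : Unit => (t j).up K') 2 hT' hgen' hU' htr2
      have htrL1 : Algebra.trdeg kL L = 1 := by
        rw [htrL]
        simp
      have hchL : CharZero kL := charZero_of_injective_algebraMap (algebraMap k' kL).injective
      have h1 := hcurve kL L htrL1
      apply (algebraMap k' kL).injective
      rw [map_zero, map_sum, ← neg_eq_zero, ← h1, ← Finset.sum_neg_distrib]
      refine Finset.sum_congr rfl fun i _ => ?_
      rw [map_mul, map_intCast, hidx, (hG3i k' K' L Unit Unit (fun _ => (t j).up K')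
        (fun _ => (s i).up K') (genU fun _ : Unit => (t j).up K') hT'
        (fun _ => Sys.up_nz K' (hs i).1) hgen').1 hU',
        hM1 kL L htrL1 (((s i).up K').up L) (Sys.up_nz L (Sys.up_nz K' (hs i).1))]
      push_cast
      ring
    · refine Finset.sum_eq_zero fun i _ => ?_
      rw [hidx, (hG3i k' K' (Gen fun _ : Unit => (t j).up K') Unit Unit (fun _ => (t j).up K')
        (fun _ => (s i).up K') (genU fun _ : Unit => (t j).up K') hT'
        (fun _ => Sys.up_nz K' (hs i).1) hgen').2 hU']
      simp
  -- the determinant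
  have hdet : ((Matrix.of fun i j => (Idx (Sum.elim (fun _ : Unit => s i)
      (Sum.elim (fun _ : Unit => t j) H)) k : ℤ)).map (Int.castRingHom k')).det = 0 := by
    rw [← Matrix.exists_vecMul_eq_zero_iff]
    refine ⟨a, ha, ?_⟩
    funext j
    exact key j
  rw [← RingHom.mapMatrix_apply, ← RingHom.map_det] at hdet
  exact (map_eq_zero_iff (Int.castRingHom k') (Int.cast_injective)).1 hdet

end FR
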