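import Pool.Agent.H17.FR.Targets
import Pool.Agent.H64.SC.Api

/-!
Module FR of block B7 (MP_f2954d_ag): finite rank on surfaces.
-/

namespace FR

open SC

theorem reg_smul {k L : Type} [Field k] [Field L] [Algebra k L] (P : DV k L)
    (D : Derivation k L L) (c : k) {z : L} (hz : z ∈ Reg P D) : c • z ∈ Reg P D := by
  have h : (algebraMap k P.vs c) • z ∈ Reg P D := Submodule.smul_mem _ _ hz
  have h2 : (algebraMap k P.vs c) • z = c • z := by
    rw [Algebra.smul_def, Algebra.smul_def]
    rfl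
  rwa [← h2]

theorem fr_proof (hCLS : T_CLS) (hCEN : T_CEN) (hPLC : T_PLC) (hCHX : T_CHX) (hDER : T_DER)
    (hRES : T_RES) (hV6b : T_V6b) : T_FR := by
  intro k K _ _ _ _ W _ htr hW
  obtain ⟨w, n₀, r, hw, hn₀, H⟩ := hCLS k K W htr hW
  refine ⟨r, fun s hs => ?_⟩
  obtain ⟨a, ha, ω, hω⟩ := H s hs
  refine ⟨a, ha, ?_⟩
  intro k' L _ _ _ _ _ _ _ _ _ htr'
  have hch : CharZero k' := charZero_of_injective_algebraMap (algebraMap k k').injective
  -- the places where something happens
  let S : Set (DV k' L) := {P | ∃ l, P.mo ((s l).up L) ≠ 0}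
  have hS : S.Finite := by
    have h1 : (⋃ l : Fin (r + 1), ⋃ i : Fin (s l).r,
        {P : DV k' L | P.ord (algebraMap K L ((s l).s i)) ≠ 0}).Finite :=
      Set.finite_iUnion fun l => Set.finite_iUnion fun i => hV6b k' L htr' _
    refine h1.subset ?_
    rintro P ⟨l, hl⟩
    have hnz : ((s l).up L).Nz := by
      by_contra h
      exact hl (P.mo_of_not_nz h)
    obtain ⟨i, _, hi⟩ := P.mo_exists ((s l).up L) hnz
    rw [Set.mem_iUnion]
    refine ⟨l, ?_⟩
    rw [Set.mem_iUnion]
    refine ⟨i, ?_⟩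
    change P.ord (algebraMap K L ((s l).s i)) ≠ 0
    have h2 : P.ord (algebraMap K L ((s l).s i)) = P.mo ((s l).up L) := hi
    rw [h2]
    exact hl
  obtain ⟨x, hx, hfd, hpole⟩ := hCHX k' L htr' S hS
  obtain ⟨D, hDx, hDE⟩ := hDER k' L x hx hfd
  let D' : Derivation k K L := (D.restrictScalars k).compAlgebraMap K
  have hD' : ∀ b : K, D' b = D (algebraMap K L b) := fun b => rfl
  let δl : Ω[K⁄k] →ₗ[K] L := D'.liftKaehlerDifferential
  have hδl : ∀ b : K, δl (KaehlerDifferential.D k K b) = D (algebraMap K L b) := by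
    intro b
    rw [← hD']
    exact D'.liftKaehlerDifferential_comp_D b
  let δ : Ω[K⁄k] →+ L := δl.toAddMonoidHom
  have hδs : ∀ (b : K) (η : Ω[K⁄k]), δ (b • η) = algebraMap K L b * δ η := by
    intro b η
    change δl (b • η) = _
    rw [map_smul, Algebra.smul_def]
    rfl
  have hδk : ∀ (b : k) (η : Ω[K⁄k]), δ (b • η) = algebraMap k k' b • δ η := by
    intro b η
    have h1 : b • η = (algebraMap k K b) • η := by rw [algebraMap_smul]
    rw [h1, hδs, Algebra.smul_def, ← IsScalarTower.algebraMap_apply k K L,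
      ← IsScalarTower.algebraMap_apply k k' L]
  let c : DV k' L → k' := fun P => ∑ l, algebraMap k k' (a l) * ((P.mo ((s l).up L) : ℤ) : k')
  have hc0 : ∀ P : DV k' L, 0 ≤ P.ord x → c P = 0 := by
    intro P hP
    refine Finset.sum_eq_zero fun l _ => ?_
    have : P.mo ((s l).up L) = 0 := by
      by_contra h
      have := hpole P ⟨l, h⟩
      omega
    rw [this]
    simp
  have hres := hRES k' L htr' x D (δ ω) c hx hfd hDx hDE hc0 (by
    intro P
    obtain ⟨i, hi⟩ := hCEN k k' K L W w n₀ hw hn₀ P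
    obtain ⟨hp1, hp2⟩ := hPLC k k' K L W (w i) P D δ hδs hδl (hw i).2 (hw i).1 hi
    obtain ⟨n, q, hq, hωi⟩ := hω i
    choose j hj0 hjo hjr using fun l => hp2 (n l) (s l) (q l) (hq l)
    refine ⟨r + 1, fun l => algebraMap k k' (a l), fun l => algebraMap K L ((s l).s (j l)),
      fun l => ?_, ?_, ?_⟩
    · rw [Ne, map_eq_zero]
      exact hj0 l
    · refine Finset.sum_congr rfl fun l _ => ?_
      rw [hjo]
    · have h1 := hp1 _ hωi
      rw [map_sub, map_sum] at h1
      have h2 : ∑ l, algebraMap k k' (a l) • (δ (dl k (s l) (q l)) -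
          D (algebraMap K L ((s l).s (j l))) / algebraMap K L ((s l).s (j l))) ∈ Reg P D :=
        Submodule.sum_mem _ fun l _ => reg_smul P D _ (hjr l)
      have h3 := Submodule.add_mem _ h1 h2
      convert h3 using 1
      simp only [hδk, smul_sub, Finset.sum_sub_distrib]
      abel)
  -- exchange the sums
  have hfin : ∀ l, (∑ᶠ P : DV k' L, (P.deg : ℤ) * P.mo ((s l).up L) : ℤ) =
      ∑ P ∈ hS.toFinset, (P.deg : ℤ) * P.mo ((s l).up L) := by
    intro l
    apply finsum_eq_sum_of_support_subset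
    intro P hP
    rw [Set.Finite.coe_toFinset]
    refine ⟨l, fun h => ?_⟩
    rw [Function.mem_support, h, mul_zero] at hP
    exact hP rfl
  have hfin2 : (∑ᶠ P : DV k' L, (P.deg : k') * c P) = ∑ P ∈ hS.toFinset, (P.deg : k') * c P := by
    apply finsum_eq_sum_of_support_subset
    intro P hP
    rw [Set.Finite.coe_toFinset]
    by_contra hPS
    have h0 : ∀ l, P.mo ((s l).up L) = 0 := by
      intro l
      by_contra h
      exact hPS ⟨l, h⟩
    apply hP
    change (P.deg : k') * ∑ l, algebraMap k k' (a l) * ((P.mo ((s l).up L) : ℤ) : k') = 0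
    simp only [h0]
    simp
  rw [hfin2] at hres
  rw [← hres]
  simp only [hfin]
  push_cast
  simp only [Finset.mul_sum]
  rw [Finset.sum_comm]
  refine Finset.sum_congr rfl fun P _ => ?_
  change _ = (P.deg : k') * ∑ l, algebraMap k k' (a l) * ((P.mo ((s l).up L) : ℤ) : k')
  rw [Finset.mul_sum]
  refine Finset.sum_congr rfl fun l _ => ?_
  ring

end FR
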