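import Pool.Agent.H17.FR.TargetsX

/-!
Modules HIK, GFD of block B7 (MP_f2954d_ag).
-/

namespace FR

open SCB

/-- elements which are not in the span of `G` do not exist -/
theorem span_G {N P : Type} [AddCommGroup N] [Module ℝ N] {n : ℕ} (X : Geo N P n) :
    Submodule.span ℝ X.G = ⊤ := by
  rw [eq_top_iff]
  intro x _
  obtain ⟨g, hg⟩ := X.G_nonempty
  obtain ⟨t, ht, r, c, a, hc, hx⟩ := X.G_open g hg x
  have h1 : t • x = ∑ i, a i • c i - g := by rw [← hx]; abel
  have h2 : t • x ∈ Submodule.span ℝ X.G := by
    rw [h1]
    refine Submodule.sub_mem _ (Submodule.sum_mem _ fun i _ => ?_) (Submodule.subset_span hg)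
    exact Submodule.smul_mem _ _ (Submodule.subset_span (hc i).1)
  have h3 := Submodule.smul_mem _ t⁻¹ h2
  rwa [smul_smul, inv_mul_cancel₀ ht.ne', one_smul] at h3

theorem lor_le {N : Type} [AddCommGroup N] [Module ℝ N] {q : N → N → ℝ} (hl : Lor q)
    {a x : N} (ha : 0 < q a a) (hax : q a x = 0) : q x x ≤ 0 := by
  have := hl a x ha
  rw [hax] at this
  nlinarith

/-- in a Lorentzian form an isotropic vector orthogonal to a positive one is in the kernel -/
theorem lor_ker {N : Type} [AddCommGroup N] [Module ℝ N] {q : N → N → ℝ} (hq : SymBil q)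
    (hl : Lor q) {a x : N} (ha : 0 < q a a) (hax : q a x = 0) (hx : q x x = 0) (z : N) :
    q x z = 0 := by
  by_contra hne
  -- z' = z - (q a z / q a a) a is orthogonal to a
  set s := q a z / q a a with hs
  set z' := z - s • a with hz'
  have h1 : q a z' = 0 := by
    rw [hz', hq.sub', hq.smul', hs]
    field_simp
    ring
  have h2 : q x z' = q x z := by
    rw [hz', hq.sub', hq.smul', hq.symm x a, hax]
    ring
  have h3 : q z' z' ≤ 0 := lor_le hl ha h1
  -- x + t z' for all t
  have h4 : ∀ t : ℝ, 2 * t * q x z + t ^ 2 * q z' z' ≤ 0 := by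
    intro t
    have h5 : q a (x + t • z') = 0 := by
      rw [hq.add', hq.smul', hax, h1]
      ring
    have h6 := lor_le hl ha h5
    have h7 : q (x + t • z') (x + t • z') = 2 * t * q x z + t ^ 2 * q z' z' := by
      rw [hq.add, hq.add', hq.add', hq.smul, hq.smul, hq.smul', hq.smul', hx, hq.symm z' x, h2]
      ring
    rwa [h7] at h6
  -- choose t
  set p := q x z with hp
  have h8 := h4 (p / (1 - q z' z'))
  have h9 : 0 < 1 - q z' z' := by linarith
  have h10 : 2 * (p / (1 - q z' z')) * p + (p / (1 - q z' z')) ^ 2 * q z' z' =
      p ^ 2 * (2 * (1 - q z' z') + q z' z') / (1 - q z' z') ^ 2 := by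
    field_simp
  rw [h10] at h8
  have h11 : 0 < p ^ 2 := by positivity
  have h12 : 0 < p ^ 2 * (2 * (1 - q z' z') + q z' z') / (1 - q z' z') ^ 2 := by
    apply div_pos _ (by positivity)
    apply mul_pos h11
    linarith
  linarith

theorem hik_proof : T_HIK := by
  intro N P _ _ m X A hA x hx
  -- induction: replace the A's by arbitrary members of G
  have key : ∀ t ≤ m, ∀ T : Multiset N, T.card = t → (∀ a ∈ T, a ∈ X.G) → ∀ y,
      X.I (x ::ₘ y ::ₘ (T + Multiset.replicate (m - t) A)) = 0 := by
    intro t
    induction t with
    | zero =>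
      intro _ T hT _ y
      rw [Multiset.card_eq_zero] at hT
      subst hT
      rw [zero_add, Nat.sub_zero]
      exact hx y
    | succ t ih =>
      intro ht T hT hTG y
      obtain ⟨a, T', rfl⟩ : ∃ a T', T = a ::ₘ T' := by
        have : T ≠ 0 := by
          rintro rfl
          simp at hT
        obtain ⟨a, ha⟩ := Multiset.exists_mem_of_ne_zero this
        exact ⟨a, Multiset.exists_cons_of_mem ha⟩
      rw [Multiset.card_cons] at hT
      have haG : a ∈ X.G := hTG a (Multiset.mem_cons_self _ _)
      have hT'G : ∀ b ∈ T', b ∈ X.G := fun b hb => hTG b (Multiset.mem_cons_of_mem hb)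
      set h : Multiset N := T' + Multiset.replicate (m - (t + 1)) A with hh
      have hcard : h.card + 1 = m := by
        rw [hh, Multiset.card_add, Multiset.card_replicate]
        omega
      have hhG : ∀ b ∈ h, b ∈ X.G := by
        intro b hb
        rcases Multiset.mem_add.1 hb with hb | hb
        · exact hT'G b hb
        · rw [Multiset.eq_of_mem_replicate hb]; exact hA
      have hA0 : ∀ z, X.I (x ::ₘ z ::ₘ A ::ₘ h) = 0 := by
        intro z
        have := ih (by omega) T' (by omega) hT'G z
        have e : T' + Multiset.replicate (m - t) A = A ::ₘ h := by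
          have : m - t = (m - (t + 1)) + 1 := by omega
          rw [hh, this, Multiset.replicate_succ, Multiset.add_cons]
        rwa [e] at this
      -- the forms
      have hlor : ∀ c ∈ X.G, Lor (fun u v => X.I (u ::ₘ v ::ₘ c ::ₘ h)) := by
        intro c hc
        apply X.lor
        · simp only [Multiset.card_cons]; omega
        · intro b hb
          rcases Multiset.mem_cons.1 hb with rfl | hb
          · exact hc
          · exact hhG b hb
      have hsym : ∀ c, SymBil (fun u v => X.I (u ::ₘ v ::ₘ c ::ₘ h)) := by
        intro c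
        exact X.symBil_q (s := c ::ₘ h) (by simp only [Multiset.card_cons]; omega)
      have hposA : ∀ c ∈ X.G, 0 < X.I (A ::ₘ A ::ₘ c ::ₘ h) := by
        intro c hc
        apply X.pos
        · simp only [Multiset.card_cons]; omega
        · intro b hb
          simp only [Multiset.mem_cons] at hb
          rcases hb with rfl | rfl | rfl | hb
          · exact hA
          · exact hA
          · exact hc
          · exact hhG b hb
      have hAx : ∀ c, X.I (A ::ₘ x ::ₘ c ::ₘ h) = 0 := by
        intro c
        rw [Multiset.cons_swap, Multiset.cons_swap A]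
        exact hA0 c
      have hle : ∀ c ∈ X.G, X.I (x ::ₘ x ::ₘ c ::ₘ h) ≤ 0 := by
        intro c hc
        exact lor_le (hlor c hc) (hposA c hc) (hAx c)
      -- the opposite inequality
      have hge : 0 ≤ X.I (x ::ₘ x ::ₘ a ::ₘ h) := by
        obtain ⟨s, hs, r, g, c, hgc, hsum⟩ := X.G_open A hA (-a)
        have e1 : X.I (x ::ₘ x ::ₘ (A + s • (-a)) ::ₘ h) =
            X.I (x ::ₘ x ::ₘ A ::ₘ h) - s * X.I (x ::ₘ x ::ₘ a ::ₘ h) := by
          have e2 : ∀ z, X.I (x ::ₘ x ::ₘ z ::ₘ h) = X.I (z ::ₘ x ::ₘ x ::ₘ h) := by
            intro z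
            rw [Multiset.cons_swap x z, Multiset.cons_swap x z]
          rw [e2, e2, e2, X.I_add _ _ (by simp only [Multiset.card_cons]; omega),
            X.I_smul _ _ (by simp only [Multiset.card_cons]; omega),
            X.I_neg _ (by simp only [Multiset.card_cons]; omega)]
          ring
        have e3 : X.I (x ::ₘ x ::ₘ (A + s • (-a)) ::ₘ h) ≤ 0 := by
          have e2 : ∀ z, X.I (x ::ₘ x ::ₘ z ::ₘ h) = X.I (z ::ₘ x ::ₘ x ::ₘ h) := by
            intro z
            rw [Multiset.cons_swap x z, Multiset.cons_swap x z]
          rw [hsum, e2, X.I_sum _ _ (by simp only [Multiset.card_cons]; omega)]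
          apply Finset.sum_nonpos
          intro i _
          rw [X.I_smul _ _ (by simp only [Multiset.card_cons]; omega), ← e2]
          exact mul_nonpos_of_nonneg_of_nonpos (hgc i).2.le (hle _ (hgc i).1)
        rw [e1, hA0 x, zero_sub] at e3
        by_contra hneg
        push Not at hneg
        nlinarith
      have hzero : X.I (x ::ₘ x ::ₘ a ::ₘ h) = 0 := le_antisymm (hle a haG) hge
      have hfin := lor_ker (hsym a) (hlor a haG) (hposA a haG) (hAx a) hzero y
      have e : a ::ₘ T' + Multiset.replicate (m - (t + 1)) A = a ::ₘ h := by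
        rw [hh, Multiset.cons_add]
      rw [e]
      exact hfin
  -- conclusion: nondegeneracy
  apply X.nondeg
  -- multisets with arbitrary members: replace members one by one
  have hrep : ∀ j ≤ m, ∀ T T' : Multiset N, T.card = j → (∀ a ∈ T', a ∈ X.G) →
      T.card + T'.card = m → ∀ y, X.I (x ::ₘ y ::ₘ (T + T')) = 0 := by
    intro j
    induction j with
    | zero =>
      intro _ T T' hT hT' hc y
      rw [Multiset.card_eq_zero] at hT
      subst hT
      have := key m le_rfl T' (by simpa using hc) hT' y
      rw [Nat.sub_self, Multiset.replicate_zero, add_zero] at this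
      rw [zero_add]
      exact this
    | succ j ih =>
      intro hj T T' hT hT' hc y
      obtain ⟨a, T₀, rfl⟩ : ∃ a T', T = a ::ₘ T' := by
        have : T ≠ 0 := by
          rintro rfl
          simp at hT
        obtain ⟨a, ha⟩ := Multiset.exists_mem_of_ne_zero this
        exact ⟨a, Multiset.exists_cons_of_mem ha⟩
      rw [Multiset.card_cons] at hT hc
      have ha : a ∈ Submodule.span ℝ X.G := by rw [span_G]; trivial
      have e2 : ∀ z, X.I (x ::ₘ y ::ₘ (z ::ₘ T₀ + T')) = X.I (z ::ₘ x ::ₘ y ::ₘ (T₀ + T')) := by
        intro z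
        rw [Multiset.cons_add, Multiset.cons_swap y z, Multiset.cons_swap x z]
      have hcc : (x ::ₘ y ::ₘ (T₀ + T')).card + 1 = m + 2 := by
        simp only [Multiset.card_cons, Multiset.card_add]; omega
      rw [e2]
      induction ha using Submodule.span_induction with
      | mem g hg =>
        have h1 := ih (by omega) T₀ (g ::ₘ T') (by omega) (by
          intro b hb
          rcases Multiset.mem_cons.1 hb with rfl | hb
          · exact hg
          · exact hT' b hb) (by rw [Multiset.card_cons]; omega) y
        rw [← e2, Multiset.cons_add, ← Multiset.add_cons]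
        exact h1
      | zero => exact X.I_zero hcc
      | add u v _ _ hu hv => rw [X.I_add _ _ hcc, hu, hv, add_zero]
      | smul c u _ hu => rw [X.I_smul _ _ hcc, hu, mul_zero]
  intro s hs
  obtain ⟨y, s', rfl⟩ : ∃ a T', s = a ::ₘ T' := by
    have : s ≠ 0 := by
      rintro rfl
      simp at hs
    obtain ⟨a, ha⟩ := Multiset.exists_mem_of_ne_zero this
    exact ⟨a, Multiset.exists_cons_of_mem ha⟩
  rw [Multiset.card_cons] at hs
  have := hrep m le_rfl s' 0 (by omega) (by simp) (by simp; omega) y
  rwa [add_zero] at this

theorem gfd_proof (hHIK : T_HIK) : T_GFD := by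
  intro N P _ _ m r X A hA hdet
  set b : N → N → ℝ := fun x y => X.I (x ::ₘ y ::ₘ Multiset.replicate m A) with hb
  have hsym : SymBil b := X.symBil_q (s := Multiset.replicate m A) (by simp)
  let Pr : ℕ → Prop := fun s => ∃ x y : Fin s → N, (∀ i, x i ∈ X.G) ∧ (∀ j, y j ∈ X.G) ∧
    (Matrix.of fun i j => b (x i) (y j)).det ≠ 0
  have hP0 : Pr 0 := ⟨fun i => i.elim0, fun i => i.elim0, fun i => i.elim0, fun i => i.elim0, by
    rw [Matrix.det_fin_zero]; exact one_ne_zero⟩
  classical
  obtain ⟨s, hs, hPs, hmax⟩ : ∃ s ≤ r, Pr s ∧ ¬ Pr (s + 1) := by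
    by_contra hcon
    push Not at hcon
    have h1 : ∀ s ≤ r + 1, Pr s := by
      intro s
      induction s with
      | zero => exact fun _ => hP0
      | succ s ih => exact fun h => hcon s (by omega) (ih (by omega))
    obtain ⟨x, y, hx, hy, hne⟩ := h1 (r + 1) le_rfl
    exact hne (hdet x y hx hy)
  obtain ⟨x, y, hx, hy, hne⟩ := hPs
  set M : Matrix (Fin s) (Fin s) ℝ := Matrix.of fun i j => b (x i) (y j) with hM
  have hMu : IsUnit M.det := isUnit_iff_ne_zero.2 hne
  let : Invertible M := M.invertibleOfIsUnitDet hMu
  -- every element of G is in the span of the x i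
  have hspan : ∀ z ∈ X.G, z ∈ Submodule.span ℝ (Set.range x) := by
    intro z hz
    let c : Fin s → ℝ := fun i => ∑ j, b z (y j) * (⅟M) j i
    have hz' : z - ∑ i, c i • x i = 0 := by
      apply hHIK N P m X A hA
      intro u
      have hu : u ∈ Submodule.span ℝ X.G := by rw [span_G]; trivial
      change b (z - ∑ i, c i • x i) u = 0
      induction hu using Submodule.span_induction with
      | mem u hu =>
        by_contra hne'
        apply hmax
        let e : Fin s ⊕ Fin 1 ≃ Fin (s + 1) := finSumFinEquiv
        refine ⟨fun i => Sum.elim x (fun _ => z) (e.symm i),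
          fun i => Sum.elim y (fun _ => u) (e.symm i), ?_, ?_, ?_⟩
        · intro i
          change Sum.elim x (fun _ => z) (e.symm i) ∈ X.G
          generalize e.symm i = l
          rcases l with l | l
          · exact hx l
          · exact hz
        · intro i
          change Sum.elim y (fun _ => u) (e.symm i) ∈ X.G
          generalize e.symm i = l
          rcases l with l | l
          · exact hy l
          · exact hu
        · have h1 : (Matrix.of fun i j => b (Sum.elim x (fun _ => z) (e.symm i))
              (Sum.elim y (fun _ => u) (e.symm j))) =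
              (Matrix.fromBlocks M (Matrix.of fun i (_ : Fin 1) => b (x i) u)
                (Matrix.of fun (_ : Fin 1) j => b z (y j))
                (Matrix.of fun (_ _ : Fin 1) => b z u)).submatrix e.symm e.symm := by
            ext i j
            rw [Matrix.submatrix_apply, Matrix.of_apply]
            rcases e.symm i with i | i <;> rcases e.symm j with j | j <;> rfl
          rw [h1, Matrix.det_submatrix_equiv_self, Matrix.det_fromBlocks₁₁, Matrix.det_fin_one]
          apply mul_ne_zero hne
          intro h2
          apply hne'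
          rw [← h2, hsym.sub, Matrix.sub_apply, Matrix.of_apply]
          congr 1
          rw [Matrix.mul_apply]
          have h3 : ∀ (T : Finset (Fin s)), b (∑ i ∈ T, c i • x i) u = ∑ i ∈ T, c i * b (x i) u := by
            intro T
            induction T using Finset.induction_on with
            | empty => rw [Finset.sum_empty, Finset.sum_empty, hsym.zero]
            | insert i T hi ih =>
              rw [Finset.sum_insert hi, Finset.sum_insert hi, hsym.add, hsym.smul, ih]
          rw [h3]
          refine Finset.sum_congr rfl fun i _ => ?_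
          rw [Matrix.mul_apply]
          rfl
      | zero => rw [hsym.zero']
      | add u v _ _ hu hv => rw [hsym.add', hu, hv, add_zero]
      | smul t u _ hu => rw [hsym.smul', hu, mul_zero]
    rw [sub_eq_zero] at hz'
    rw [hz']
    exact Submodule.sum_mem _ fun i _ => Submodule.smul_mem _ _ (Submodule.subset_span ⟨i, rfl⟩)
  have htop : Submodule.span ℝ (Set.range x) = ⊤ := by
    rw [eq_top_iff, ← span_G X, Submodule.span_le]
    exact hspan
  exact Module.Finite.of_fg_top (by
    rw [← htop]
    exact Submodule.fg_span (Set.finite_range x))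

end FR
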