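import Pool.Agent.H17.FR.TargetsX

/-!
Modules GLP, FDX of block B7 (MP_f2954d_ag).
-/

namespace FR

open SC

theorem glp_proof (hLPM : T_LPM) (hXF : T_XF) : T_GLP := by
  intro K _ _ N n w hw D S hS
  obtain ⟨hsec, hgen⟩ := hS
  constructor
  · obtain ⟨i, hi⟩ := hw.nonzero
    obtain ⟨p, hp⟩ := Ideal.exists_maximal (chart w i)
    obtain ⟨j, hj⟩ := hgen i hi p hp
    exact ⟨j, hj.1⟩
  · refine hLPM ℂ K N w S hw.nonzero fun i hi p hp => ?_
    obtain ⟨a, ha⟩ := hgen i hi p hp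
    refine ⟨a, ha.1, fun b => ?_⟩
    by_cases hb : S.s b = 0
    · refine ⟨0, 1, ?_, ?_⟩
      · intro h1
        exact hp.ne_top ((Ideal.eq_top_iff_one _).2 h1)
      · rw [hb]
        simp
    have h1 : InLoc p (S.s b / S.s a) := by
      refine hXF K N n w hw i p (S.s b / S.s a) hi hp (div_ne_zero hb ha.1) fun v hv => ?_
      have h2 := ha.2 v hv
      have h3 := (hsec b v).resolve_left hb
      rw [v.1.ord_div hb ha.1]
      omega
    obtain ⟨c, d, hd, hcd⟩ := h1
    refine ⟨c, d, hd, ?_⟩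
    have hd0 : (d : K) ≠ 0 := by
      intro h0
      apply hd
      have : d = 0 := Subtype.ext h0
      rw [this]
      exact Submodule.zero_mem _
    rw [div_eq_div_iff ha.1 hd0] at hcd
    rw [mul_comm, hcd]

theorem fdx_proof (hDET : T_DET) (hGLP : T_GLP) (hXI : T_XI) : T_FDX := by
  intro K _ _ N m w hw J _ H hJ hH
  have := hXI K N (m + 2) w hw
  have hfin : Module.Finite ℂ (Submodule.span ℂ (Set.range w)) :=
    Module.Finite.span_of_finite ℂ (Set.finite_range w)
  obtain ⟨i, hi⟩ := hw.nonzero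
  obtain ⟨r, hr⟩ := hDET ℂ K J H (Submodule.span ℂ (Set.range w)) (by
    intro h
    apply hi
    have h1 : w i ∈ Submodule.span ℂ (Set.range w) := Submodule.subset_span ⟨i, rfl⟩
    rw [h] at h1
    exact (Submodule.mem_bot ℂ).1 h1) hH (by
    rw [hw.dim, hJ])
  refine ⟨r, fun D E S T hS hT => ?_⟩
  exact hr S T (fun l => hGLP K N (m + 2) w hw (D l) (S l) (hS l))
    (fun l => (hGLP K N (m + 2) w hw (E l) (T l) (hT l)).1)

end FR
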