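import Pool.Agent.H17.FR.Targets
import Pool.Agent.H64.SC.Api

/-!
Module PLN of block B7 (MP_f2954d_ag): discrete valuations of `k(x)`.
-/

namespace FR

open SC Polynomial

section

variable {k E : Type} [Field k] [Field E] [Algebra k E]

/-- `z` is transcendental and generates `E` -/
structure Gn (k : Type) {E : Type} [Field k] [Field E] [Algebra k E] (z : E) : Prop where
  tr : Transcendental k z
  top : IntermediateField.adjoin k {z} = ⊤

theorem Gn.ne {z : E} (h : Gn k z) {a : k[X]} (ha : a ≠ 0) : aeval z a ≠ 0 := by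
  intro h0
  exact h.tr ⟨a, ha, h0⟩

theorem Gn.inv {z : E} (h : Gn k z) : Gn k z⁻¹ := by
  refine ⟨fun h0 => h.tr (by rw [← inv_inv z]; exact h0.inv), ?_⟩
  rw [eq_top_iff, ← h.top, IntermediateField.adjoin_simple_le_iff]
  have h1 : z⁻¹ ∈ IntermediateField.adjoin k {z⁻¹} := IntermediateField.mem_adjoin_simple_self k _
  have := inv_mem h1
  rwa [inv_inv] at this

theorem Gn.exists_div {z : E} (h : Gn k z) (y : E) (hy : y ≠ 0) :
    ∃ r s : k[X], r ≠ 0 ∧ s ≠ 0 ∧ y = aeval z r / aeval z s := by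
  have h1 : y ∈ IntermediateField.adjoin k {z} := by rw [h.top]; trivial
  obtain ⟨r, s, hrs⟩ := (IntermediateField.mem_adjoin_simple_iff k y).1 h1
  refine ⟨r, s, ?_, ?_, hrs⟩
  · rintro rfl
    rw [map_zero, zero_div] at hrs
    exact hy hrs
  · rintro rfl
    rw [map_zero, div_zero] at hrs
    exact hy hrs

theorem ord_poly_nonneg (Q : DV k E) {z : E} (hz : 0 ≤ Q.ord z) (a : k[X]) :
    0 ≤ Q.ord (aeval z a) := by
  rw [aeval_eq_sum_range]
  apply Q.ord_sum_nonneg
  intro i _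
  rw [Algebra.smul_def]
  apply Q.ord_mul_nonneg
  · rw [Q.ord_base]
  · exact Q.ord_pow_nonneg hz i

/-- `p` is the minimal polynomial of the reduction of `z` -/
structure Pr (Q : DV k E) (z : E) (p : k[X]) : Prop where
  ne : p ≠ 0
  pos : 0 < Q.ord (aeval z p)
  dvd : ∀ a : k[X], a ≠ 0 → 0 < Q.ord (aeval z a) → p ∣ a

theorem Pr.decomp {Q : DV k E} {z : E} {p : k[X]} (hg : Gn k z) (hz : 0 ≤ Q.ord z)
    (h : Pr Q z p) {a : k[X]} (ha : a ≠ 0) : ∃ (m : ℕ) (b : k[X]), a = p ^ m * b ∧ b ≠ 0 ∧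
      Q.ord (aeval z b) = 0 ∧ Q.ord (aeval z a) = m * Q.ord (aeval z p) := by
  have hu : ¬ IsUnit p := by
    intro hu
    obtain ⟨c, hc, rfl⟩ := Polynomial.isUnit_iff.1 hu
    have := h.pos
    rw [aeval_C, Q.ord_base] at this
    omega
  have hfin : FiniteMultiplicity p a := FiniteMultiplicity.of_not_isUnit hu ha
  obtain ⟨b, hb, hnd⟩ := hfin.exists_eq_pow_mul_and_not_dvd
  have hb0 : b ≠ 0 := by
    rintro rfl
    exact hnd (dvd_zero _)
  have hb1 : Q.ord (aeval z b) = 0 := by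
    have h1 := ord_poly_nonneg Q hz b
    by_contra h2
    exact hnd (h.dvd b hb0 (by omega))
  refine ⟨multiplicity p a, b, hb, hb0, hb1, ?_⟩
  conv_lhs => rw [hb]
  rw [map_mul, map_pow, Q.ord_mul _ _ (pow_ne_zero _ (hg.ne h.ne)) (hg.ne hb0), hb1, add_zero,
    Q.ord_pow]

theorem Pr.ord_eq {Q : DV k E} {z : E} {p : k[X]} (hg : Gn k z) (hz : 0 ≤ Q.ord z)
    (h : Pr Q z p) {a : k[X]} (ha : a ≠ 0) :
    Q.ord (aeval z a) = multiplicity p a * Q.ord (aeval z p) := by
  have hu : ¬ IsUnit p := by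
    intro hu
    obtain ⟨c, hc, rfl⟩ := Polynomial.isUnit_iff.1 hu
    have := h.pos
    rw [aeval_C, Q.ord_base] at this
    omega
  have hfin : FiniteMultiplicity p a := FiniteMultiplicity.of_not_isUnit hu ha
  obtain ⟨b, hb, hnd⟩ := hfin.exists_eq_pow_mul_and_not_dvd
  have hb0 : b ≠ 0 := by
    rintro rfl
    exact hnd (dvd_zero _)
  have hb1 : Q.ord (aeval z b) = 0 := by
    have h1 := ord_poly_nonneg Q hz b
    by_contra h2
    exact hnd (h.dvd b hb0 (by omega))
  have h2 : aeval z a = aeval z p ^ (multiplicity p a) * aeval z b := by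
    conv_lhs => rw [hb]
    rw [map_mul, map_pow]
  rw [h2, Q.ord_mul _ _ (pow_ne_zero _ (hg.ne h.ne)) (hg.ne hb0), hb1, add_zero, Q.ord_pow]

theorem Pr.one {Q : DV k E} {z : E} {p : k[X]} (hg : Gn k z) (hz : 0 ≤ Q.ord z)
    (h : Pr Q z p) : Q.ord (aeval z p) = 1 := by
  obtain ⟨y, hy0, hy⟩ := Q.ord_surj
  obtain ⟨r, s, hr, hs, rfl⟩ := hg.exists_div y hy0
  obtain ⟨m, b, _, _, _, h1⟩ := h.decomp hg hz hr
  obtain ⟨n, c, _, _, _, h2⟩ := h.decomp hg hz hs
  rw [Q.ord_div (hg.ne hr) (hg.ne hs), h1, h2, ← sub_mul] at hy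
  have hpos := h.pos
  exact (Int.eq_one_or_neg_one_of_mul_eq_one' hy).elim (fun h => h.2) (fun h => by omega)

theorem exists_pr {Q : DV k E} {z : E} (hg : Gn k z) (hz : 0 ≤ Q.ord z) : ∃ p, Pr Q z p ∧
    ∀ a : k[X], a ≠ 0 → 0 < Q.ord (aeval z a) → p.natDegree ≤ a.natDegree := by
  have hne : ∃ n : ℕ, ∃ a : k[X], a.natDegree = n ∧ a ≠ 0 ∧ 0 < Q.ord (aeval z a) := by
    obtain ⟨y, hy0, hy⟩ := Q.ord_surj
    obtain ⟨r, s, hr, hs, rfl⟩ := hg.exists_div y hy0
    rw [Q.ord_div (hg.ne hr) (hg.ne hs)] at hy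
    have h1 := ord_poly_nonneg Q hz s
    exact ⟨_, r, rfl, hr, by omega⟩
  classical
  obtain ⟨p, hp1, hp0, hpos⟩ := Nat.find_spec hne
  have hmin : ∀ a : k[X], a ≠ 0 → 0 < Q.ord (aeval z a) → p.natDegree ≤ a.natDegree := by
    intro a ha ha'
    rw [hp1]
    exact Nat.find_min' hne ⟨a, rfl, ha, ha'⟩
  refine ⟨p, ⟨hp0, hpos, fun a ha ha' => ?_⟩, hmin⟩
  have h1 : p * (a / p) + a % p = a := EuclideanDomain.div_add_mod a p
  by_cases h0 : a % p = 0
  · rw [h0, add_zero] at h1
    exact ⟨_, h1.symm⟩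
  · exfalso
    have h2 : 0 < Q.ord (aeval z (a % p)) := by
      have h3 : aeval z (a % p) = aeval z a + -(aeval z p * aeval z (a / p)) := by
        rw [← map_mul, ← sub_eq_add_neg, ← map_sub]
        congr 1
        rw [eq_sub_iff_add_eq, add_comm]
        exact h1
      have h4 := ord_poly_nonneg Q hz (a / p)
      by_cases h5 : a / p = 0
      · rw [h3, h5, map_zero, mul_zero, neg_zero, add_zero]
        exact ha'
      · have h6 : 0 < Q.ord (-(aeval z p * aeval z (a / p))) := by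
          rw [Q.ord_neg, Q.ord_mul _ _ (hg.ne hp0) (hg.ne h5)]
          omega
        rw [h3]
        have h7 := Q.ord_add (aeval z a) (-(aeval z p * aeval z (a / p))) (hg.ne ha)
          (neg_ne_zero.2 (mul_ne_zero (hg.ne hp0) (hg.ne h5))) (by rw [← h3]; exact hg.ne h0)
        omega
    have h3 := hmin _ h0 h2
    have h4 : (a % p).degree < p.degree := Polynomial.degree_mod_lt a hp0
    have h5 : (a % p).natDegree < p.natDegree := Polynomial.natDegree_lt_natDegree h0 h4
    omega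

theorem red_poly (Q : DV k E) {z : E} (hz : 0 ≤ Q.ord z) (a : k[X]) :
    Q.red (aeval z a) = aeval (Q.red z) a := by
  rw [aeval_eq_sum_range, aeval_eq_sum_range, Q.red_sum]
  · refine Finset.sum_congr rfl fun i _ => ?_
    rw [Q.red_smul _ (Q.ord_pow_nonneg hz i), Q.red_pow hz]
  · intro i _
    rw [Algebra.smul_def]
    apply Q.ord_mul_nonneg
    · rw [Q.ord_base]
    · exact Q.ord_pow_nonneg hz i

theorem res_eq_adjoin {Q : DV k E} {z : E} (hg : Gn k z) (hz : 0 ≤ Q.ord z) :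
    IntermediateField.adjoin k {Q.red z} = ⊤ := by
  obtain ⟨p, hp, -⟩ := exists_pr hg hz
  rw [eq_top_iff]
  intro y _
  by_cases hy0 : y = 0
  · rw [hy0]; exact zero_mem _
  obtain ⟨u, hu, hu0, huo⟩ := Q.exists_red_ne hy0
  obtain ⟨r, s, hr, hs, hrs⟩ := hg.exists_div u hu0
  obtain ⟨m, b, h1, hb0, hb, hr1⟩ := hp.decomp hg hz hr
  obtain ⟨n, c, h2, hc0, hc, hs1⟩ := hp.decomp hg hz hs
  have h3 : Q.ord (aeval z p) = 1 := hp.one hg hz
  have h4 : m = n := by
    rw [hrs, Q.ord_div (hg.ne hr) (hg.ne hs), hr1, hs1, h3] at huo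
    omega
  subst h4
  have h5 : u = aeval z b / aeval z c := by
    rw [hrs, h1, h2, map_mul, map_mul, map_pow, mul_div_mul_left _ _ (pow_ne_zero _ (hg.ne hp.ne))]
  rw [← hu, h5, Q.red_div hb.ge hc, red_poly Q hz, red_poly Q hz]
  rw [IntermediateField.mem_adjoin_simple_iff]
  exact ⟨b, c, rfl⟩

theorem res_finite {Q : DV k E} {z : E} (hg : Gn k z) (hz : 0 ≤ Q.ord z) :
    Module.Finite k Q.Res := by
  obtain ⟨p, hp, -⟩ := exists_pr hg hz
  have h1 : IsIntegral k (Q.red z) := by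
    apply IsAlgebraic.isIntegral
    refine ⟨p, hp.ne, ?_⟩
    rw [← red_poly Q hz]
    exact Q.red_eq_zero_of_pos hp.pos
  have h2 := IntermediateField.adjoin.finiteDimensional h1
  rw [res_eq_adjoin hg hz] at h2
  exact Module.Finite.of_surjective (IntermediateField.topEquiv (F := k) (E := Q.Res)).toLinearMap
    (IntermediateField.topEquiv (F := k) (E := Q.Res)).surjective

theorem pr_X {Q : DV k E} {z : E} (hz : 0 < Q.ord z) : Pr Q z X := by
  refine ⟨X_ne_zero, by rwa [aeval_X], fun a ha ha' => ?_⟩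
  rw [X_dvd_iff]
  by_contra h0
  have h1 : a = X * divX a + C (a.coeff 0) := (X_mul_divX_add a).symm
  have h2 : aeval z a = z * aeval z (divX a) + algebraMap k E (a.coeff 0) := by
    conv_lhs => rw [h1]
    rw [map_add, map_mul, aeval_X, aeval_C]
  have h3 : algebraMap k E (a.coeff 0) ≠ 0 := by
    rw [Ne, map_eq_zero]; exact h0
  have h4 := Q.ord_add_eq_left h3 (y := z * aeval z (divX a)) (fun h => by
    rw [Q.ord_base]
    have hz0 : z ≠ 0 := left_ne_zero_of_mul h
    rw [Q.ord_mul _ _ hz0 (right_ne_zero_of_mul h)]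
    have := ord_poly_nonneg Q hz.le (divX a)
    omega)
  rw [add_comm, ← h2, Q.ord_base] at h4
  omega

end

theorem exists_dv (hV4 : T_V4) {k E : Type} [Field k] [Field E] [Algebra k E] {z : E}
    (hg : Gn k z) (π : k[X]) (hπ : Irreducible π) :
    ∃ Q : DV k E, ∀ (a : k[X]) (n : ℕ), a ≠ 0 → ((n : ℤ) ≤ Q.ord (aeval z a) ↔ π ^ n ∣ a) := by
  let : Algebra k[X] E := (aeval z : k[X] →ₐ[k] E).toRingHom.toAlgebra
  have hmap : ∀ a : k[X], algebraMap k[X] E a = aeval z a := fun a => rfl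
  have htow : IsScalarTower k k[X] E := IsScalarTower.of_algebraMap_eq fun c => by
    rw [hmap, algebraMap_eq, aeval_C]
  have hfaith : FaithfulSMul k[X] E := by
    rw [faithfulSMul_iff_algebraMap_injective, injective_iff_map_eq_zero]
    intro a ha
    by_contra h0
    exact hg.ne h0 ha
  have hfrac : IsFractionRing k[X] E := IsFractionRing.of_field k[X] E fun y => by
    by_cases hy : y = 0
    · exact ⟨0, 1, by rw [hy, map_zero, zero_div]⟩
    · obtain ⟨r, s, _, _, h⟩ := hg.exists_div y hy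
      exact ⟨r, s, h⟩
  have hprime : (Ideal.span {π}).IsPrime := by
    rw [Ideal.span_singleton_prime hπ.ne_zero]
    exact hπ.prime
  obtain ⟨Q, hQ, -⟩ := hV4 k k[X] E (Ideal.span {π}) (by
    rw [Ne, Ideal.span_singleton_eq_bot]
    exact hπ.ne_zero)
  refine ⟨Q, fun a n ha => ?_⟩
  rw [← hmap, hQ a n ha, Ideal.span_singleton_pow, Ideal.mem_span_singleton]

theorem ord_inf_nonpos {k E : Type} [Field k] [Field E] [Algebra k E] {x : E}
    (hg : Gn k x) (Q : DV k E) (hQ : Q.ord x < 0) (n : ℕ) : ∀ a : k[X], a ≠ 0 →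
    a.natDegree ≤ n → Q.ord (aeval x a) ≤ 0 := by
  induction n with
  | zero =>
    intro a ha hn
    rw [Polynomial.eq_C_of_natDegree_le_zero hn, aeval_C, Q.ord_base]
  | succ n ih =>
    intro a ha hn
    have h2 : aeval x a = x * aeval x (divX a) + algebraMap k E (a.coeff 0) := by
      have h1 : a = X * divX a + C (a.coeff 0) := (X_mul_divX_add a).symm
      conv_lhs => rw [h1]
      rw [map_add, map_mul, aeval_X, aeval_C]
    have hx0 : x ≠ 0 := by
      rintro rfl
      rw [Q.ord_zero] at hQ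
      omega
    by_cases h0 : divX a = 0
    · rw [h2, h0, map_zero, mul_zero, zero_add, Q.ord_base]
    · have h3 := ih (divX a) h0 (by rw [natDegree_divX_eq_natDegree_tsub_one]; omega)
      have h4 : Q.ord (x * aeval x (divX a)) < 0 := by
        rw [Q.ord_mul _ _ hx0 (hg.ne h0)]
        omega
      have h5 := Q.ord_add_eq_left (mul_ne_zero hx0 (hg.ne h0))
        (y := algebraMap k E (a.coeff 0)) (fun _ => by rw [Q.ord_base]; exact h4)
      rw [h2, h5.2]
      omega

theorem pln_proof (hV4 : T_V4) : T_PLN := by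
  intro k E _ _ _ _ x hx htop D hD
  have hg : Gn k x := ⟨hx, htop⟩
  have hx0 : x ≠ 0 := by
    rintro rfl
    exact hx isAlgebraic_zero
  have hinv : ∀ Q : DV k E, Q.ord x < 0 → 0 < Q.ord x⁻¹ := by
    intro Q hQ
    rw [Q.ord_inv]
    omega
  refine ⟨?_, ?_, ?_, ?_, ?_, ?_⟩
  · intro Q
    by_cases h : 0 ≤ Q.ord x
    · exact res_finite hg h
    · exact res_finite hg.inv (hinv Q (by omega)).le
  · intro Q hQ
    obtain ⟨p, hp, hmin⟩ := exists_pr hg hQ
    have hD' : D (aeval x p) = aeval x (derivative p) := by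
      rw [Derivation.map_aeval, hD, smul_eq_mul, mul_one]
    have hdeg : p.natDegree ≠ 0 := by
      intro h0
      have h1 := hp.pos
      rw [Polynomial.eq_C_of_natDegree_eq_zero h0, aeval_C, Q.ord_base] at h1
      omega
    have hder : derivative p ≠ 0 := by
      intro h0
      exact hdeg (Polynomial.derivative_eq_zero.1 h0)
    refine ⟨aeval x p, hp.one hg hQ, ?_, ?_⟩
    · rw [hD']
      exact hg.ne hder
    · rw [hD']
      have h1 := ord_poly_nonneg Q hQ (derivative p)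
      by_contra h2
      have h3 := hmin _ hder (by omega)
      have h4 := Polynomial.natDegree_derivative_lt hdeg
      omega
  · obtain ⟨Q, hQ⟩ := exists_dv hV4 hg.inv X irreducible_X
    refine ⟨Q, ?_⟩
    have h1 := (hQ X 1 X_ne_zero).2 (by rw [pow_one])
    rw [aeval_X, Q.ord_inv] at h1
    push_cast at h1
    omega
  · intro Q hQ
    have hz := hinv Q hQ
    have h1 := (pr_X hz).one hg.inv hz.le
    rw [aeval_X, Q.ord_inv] at h1
    refine ⟨by omega, ?_⟩
    have h2 := res_eq_adjoin hg.inv hz.le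
    rw [Q.red_eq_zero_of_pos hz, IntermediateField.adjoin_zero] at h2
    unfold DV.deg
    exact IntermediateField.bot_eq_top_iff_finrank_eq_one.1 h2
  · intro Q Q' hQ hQ'
    have hz := hinv Q hQ
    have hz' := hinv Q' hQ'
    apply DV.ext_of_vs_le
    intro y hy
    rw [DV.mem_vs] at hy ⊢
    by_cases hy0 : y = 0
    · rw [hy0, Q'.ord_zero]
    obtain ⟨r, s, hr, hs, rfl⟩ := hg.inv.exists_div y hy0
    have e1 := (pr_X hz).one hg.inv hz.le
    have e2 := (pr_X hz').one hg.inv hz'.le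
    rw [Q.ord_div (hg.inv.ne hr) (hg.inv.ne hs), (pr_X hz).ord_eq hg.inv hz.le hr,
      (pr_X hz).ord_eq hg.inv hz.le hs, e1] at hy
    rw [Q'.ord_div (hg.inv.ne hr) (hg.inv.ne hs), (pr_X hz').ord_eq hg.inv hz'.le hr,
      (pr_X hz').ord_eq hg.inv hz'.le hs, e2]
    exact hy
  · intro h hh hfin Q hQ
    obtain ⟨r, s, hr, hs, hrs⟩ := hg.exists_div h hh
    -- reduce the fraction
    obtain ⟨r', s', hcop, hr's'⟩ : ∃ r' s' : k[X], IsCoprime r' s' ∧
        h = aeval x r' / aeval x s' ∧ r' ≠ 0 ∧ s' ≠ 0 := by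
      obtain ⟨r', s', d, hcop, hr', hs'⟩ : ∃ r' s' d : k[X], IsCoprime r' s' ∧ r = d * r' ∧
          s = d * s' := by
        classical
        obtain ⟨r', hr'⟩ := EuclideanDomain.gcd_dvd_left r s
        obtain ⟨s', hs'⟩ := EuclideanDomain.gcd_dvd_right r s
        refine ⟨r', s', EuclideanDomain.gcd r s, ?_, hr', hs'⟩
        have hd : EuclideanDomain.gcd r s ≠ 0 := by
          intro h0
          rw [h0, zero_mul] at hr'
          exact hr hr'
        refine ⟨EuclideanDomain.gcdA r s, EuclideanDomain.gcdB r s, ?_⟩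
        apply mul_left_cancel₀ hd
        have h1 := EuclideanDomain.gcd_eq_gcd_ab r s
        calc EuclideanDomain.gcd r s * (EuclideanDomain.gcdA r s * r' +
              EuclideanDomain.gcdB r s * s') =
            (EuclideanDomain.gcd r s * r') * EuclideanDomain.gcdA r s +
              (EuclideanDomain.gcd r s * s') * EuclideanDomain.gcdB r s := by ring
          _ = r * EuclideanDomain.gcdA r s + s * EuclideanDomain.gcdB r s := by
            rw [← hr', ← hs']
          _ = EuclideanDomain.gcd r s * 1 := by rw [← h1, mul_one]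
      have hd : d ≠ 0 := by
        rintro rfl
        rw [zero_mul] at hr'
        exact hr hr'
      refine ⟨r', s', hcop, ?_, ?_, ?_⟩
      · rw [hrs, hr', hs', map_mul, map_mul, mul_div_mul_left _ _ (hg.ne hd)]
      · rintro rfl
        rw [mul_zero] at hr'
        exact hr hr'
      · rintro rfl
        rw [mul_zero] at hs'
        exact hs hs'
    obtain ⟨hh', hr'0, hs'0⟩ := hr's'
    have hunit : IsUnit s' := by
      by_contra hnu
      obtain ⟨π, hπ, hπs⟩ := WfDvdMonoid.exists_irreducible_factor hnu hs'0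
      obtain ⟨Q', hQ'⟩ := exists_dv hV4 hg π hπ
      have hx1 : 0 ≤ Q'.ord x := by
        have := (hQ' X 0 X_ne_zero).2 (by rw [pow_zero]; exact one_dvd _)
        rwa [aeval_X] at this
      have h1 := hfin Q' hx1
      rw [hh', Q'.ord_div (hg.ne hr'0) (hg.ne hs'0)] at h1
      have h2 := (hQ' s' 1 hs'0).2 (by rwa [pow_one])
      have h3 : ¬ (1 : ℤ) ≤ Q'.ord (aeval x r') := by
        intro h3
        have h4 := (hQ' r' 1 hr'0).1 (by exact_mod_cast h3)
        rw [pow_one] at h4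
        exact hπ.not_isUnit (hcop.isUnit_of_dvd' h4 hπs)
      push_cast at h2
      omega
    obtain ⟨c, hc, hcs⟩ := Polynomial.isUnit_iff.1 hunit
    rw [hh', Q.ord_div (hg.ne hr'0) (hg.ne hs'0), ← hcs, aeval_C, Q.ord_base, sub_zero]
    exact ord_inf_nonpos hg Q hQ _ r' hr'0 le_rfl

end FR
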