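import Pool.Agent.H17.FR.Targets
import Pool.Agent.H64.SC.Api2

/-!
Module RES of block B7 (MP_f2954d_ag): the residue theorem.
-/

namespace FR

open SC

section

variable {k L : Type} [Field k] [Field L] [Algebra k L] (P : DV k L)

/-- members of the maximal ideal -/
def Sml (z : L) : Prop := z = 0 ∨ 0 < P.ord z

theorem cong_iff (g : L) (c : k) : Cong P g c ↔ Sml P (g - algebraMap k L c) := by
  unfold Cong Sml
  rw [sub_eq_zero]

theorem sml_zero : Sml P 0 := Or.inl rfl

theorem sml_add {z z' : L} (h : Sml P z) (h' : Sml P z') : Sml P (z + z') := by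
  rcases h with h | h
  · rw [h, zero_add]; exact h'
  rcases h' with h' | h'
  · rw [h', add_zero]; exact Or.inr h
  by_cases h0 : z + z' = 0
  · exact Or.inl h0
  right
  by_cases hz : z = 0
  · rw [hz, zero_add]; exact h'
  by_cases hz' : z' = 0
  · rw [hz', add_zero]; exact h
  have := P.ord_add z z' hz hz' h0
  omega

theorem sml_neg {z : L} (h : Sml P z) : Sml P (-z) := by
  rcases h with h | h
  · left; rw [h, neg_zero]
  · right; rw [P.ord_neg]; exact h

theorem sml_mul {z b : L} (h : Sml P z) (hb : 0 ≤ P.ord b) : Sml P (b * z) := by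
  rcases h with h | h
  · left; rw [h, mul_zero]
  by_cases hb0 : b = 0
  · left; rw [hb0, zero_mul]
  by_cases hz : z = 0
  · left; rw [hz, mul_zero]
  right
  rw [P.ord_mul _ _ hb0 hz]
  omega

theorem sml_smul {z : L} (h : Sml P z) (c : k) : Sml P (c • z) := by
  rw [Algebra.smul_def]
  exact sml_mul P h (by rw [P.ord_base])

theorem sml_sum {ι : Type*} (s : Finset ι) (z : ι → L) (h : ∀ i ∈ s, Sml P (z i)) :
    Sml P (∑ i ∈ s, z i) := by
  classical
  induction s using Finset.induction_on with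
  | empty => exact sml_zero P
  | insert a s ha ih =>
    rw [Finset.sum_insert ha]
    exact sml_add P (h a (Finset.mem_insert_self _ _))
      (ih fun i hi => h i (Finset.mem_insert_of_mem hi))

theorem const_of_sml {c : k} (h : Sml P (algebraMap k L c)) : c = 0 := by
  by_contra hc
  rcases h with h | h
  · exact hc ((map_eq_zero _).1 h)
  · rw [P.ord_base] at h
    omega

/-- a valuation is not trivial on a subfield over which the field is algebraic -/
theorem exists_ord_ne (E : Type) [Field E] [Algebra E L] [FiniteDimensional E L] :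
    ∃ y : E, P.ord (algebraMap E L y) ≠ 0 := by
  by_contra hcon
  push Not at hcon
  obtain ⟨y, hy0, hy⟩ := P.ord_surj
  let φ : E →+* P.vs := (algebraMap E L).codRestrict P.vs.toSubring fun a => by
    change 0 ≤ P.ord (algebraMap E L a)
    rw [hcon]
  have hint : IsIntegral E y⁻¹ := IsIntegral.of_finite E y⁻¹
  obtain ⟨p, hp, hp'⟩ := hint
  have h2 : IsIntegral P.vs y⁻¹ := by
    refine ⟨p.map φ, hp.map φ, ?_⟩
    rw [Polynomial.eval₂_map]
    exact hp'
  obtain ⟨z, hz⟩ := (IsIntegrallyClosed.isIntegral_iff (R := P.vs) (K := L)).1 h2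
  have h3 : 0 ≤ P.ord y⁻¹ := by
    rw [← hz]
    exact z.2
  rw [P.ord_inv, hy] at h3
  omega

end

theorem res_local (hTHE : T_THE) (hBND : T_BND) (hV6a : T_V6a) (k L : Type) [Field k] [CharZero k]
    [Field L] [Algebra k L] [Algebra.EssFiniteType k L] (htr : Algebra.trdeg k L = 1)
    (D : Derivation k L L) (f : L) (c : k) (P : DV k L)
    (hloc : ∃ (r : ℕ) (a : Fin r → k) (g : Fin r → L), (∀ l, g l ≠ 0) ∧
      ∑ l, a l * (P.ord (g l) : k) = c ∧ f - ∑ l, a l • (D (g l) / g l) ∈ Reg P D)
    (t : L) (ht0 : t ≠ 0) (hDt : D t ≠ 0) (ht : 0 < P.ord t) :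
    Cong P (t / D t * f) (c / (P.ord t : k)) := by
  obtain ⟨r, a, g, hg, hac, hreg⟩ := hloc
  let θ : Derivation k L L := (t / D t) • D
  have hθ : ∀ z, θ z = t / D t * D z := fun z => rfl
  have hθt : θ t = t := by
    rw [hθ, div_mul_cancel₀ _ hDt]
  have hfin : Module.Finite k P.Res := hV6a k L htr P
  have halg : Algebra.IsAlgebraic k P.Res := Algebra.IsAlgebraic.of_finite k P.Res
  obtain ⟨h1, h2⟩ := hTHE k L θ P t halg (hBND k L htr θ P) hθt ht0 ht
  have hz : ∀ z ∈ Reg P D, Sml P (t / D t * z) := by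
    intro z hz
    induction hz using Submodule.span_induction with
    | mem z hz =>
      obtain ⟨b, hb, rfl⟩ := hz
      rw [← hθ]
      by_cases h0 : θ b = 0
      · exact Or.inl h0
      · exact Or.inr (h1 b hb h0)
    | zero => rw [mul_zero]; exact sml_zero P
    | add x y _ _ hx hy => rw [mul_add]; exact sml_add P hx hy
    | smul b z _ hz =>
      have : t / D t * (b • z) = (b : L) * (t / D t * z) := by
        rw [Algebra.smul_def]
        change t / D t * ((b : L) * z) = _
        ring
      rw [this]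
      exact sml_mul P hz b.2
  rw [cong_iff]
  have h3 := hz _ hreg
  have h4 : Sml P (∑ l, a l • (θ (g l) / g l -
      algebraMap k L ((P.ord (g l) : k) / (P.ord t : k)))) := by
    refine sml_sum P _ _ fun l _ => sml_smul P ?_ _
    rw [← cong_iff]
    exact h2 (g l) (hg l)
  have h5 := sml_add P h3 h4
  convert h5 using 1
  rw [← hac, Finset.sum_div, map_sum, mul_sub, Finset.mul_sum]
  simp only [smul_sub, Finset.sum_sub_distrib]
  have e1 : ∀ l, t / D t * (a l • (D (g l) / g l)) = a l • (θ (g l) / g l) := by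
    intro l
    rw [hθ, mul_smul_comm]
    congr 1
    ring
  have e2 : ∀ l, algebraMap k L (a l * (P.ord (g l) : k) / (P.ord t : k)) =
      a l • algebraMap k L ((P.ord (g l) : k) / (P.ord t : k)) := by
    intro l
    rw [Algebra.smul_def, ← map_mul]
    congr 1
    ring
  simp only [e1, e2]
  abel

theorem adjoin_self_top (k L : Type) [Field k] [Field L] [Algebra k L] (x : L) :
    IntermediateField.adjoin k
      {(⟨x, IntermediateField.mem_adjoin_simple_self k x⟩ : IntermediateField.adjoin k {x})} =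
      ⊤ := by
  apply IntermediateField.lift_injective
  rw [IntermediateField.lift_adjoin_simple, IntermediateField.lift_top]

theorem res_proof (hTHE : T_THE) (hBND : T_BND) (hTR0 : T_TR0) (hTR1 : T_TR1) (hPLN : T_PLN)
    (hV2 : T_V2) (hV6a : T_V6a) : T_RES := by
  intro k L _ _ _ _ _ htr x D f c hx hfd hDx hDE hc0 hloc
  let E := IntermediateField.adjoin k {x}
  let xE : E := ⟨x, IntermediateField.mem_adjoin_simple_self k x⟩
  have hxE : algebraMap E L xE = x := rfl
  have hE : IntermediateField.adjoin k {xE} = ⊤ := adjoin_self_top k L x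
  have hxtr : Transcendental k xE := by
    intro h
    apply hx
    exact (isAlgebraic_algebraMap_iff (algebraMap E L).injective).2 h
  -- the restricted derivation
  let DE : Derivation k E E := Derivation.mk'
    { toFun := fun a => ⟨D a.1, hDE a.1 a.2⟩
      map_add' := fun a b => Subtype.ext (map_add D a.1 b.1)
      map_smul' := fun a b => Subtype.ext (D.map_smul a b.1) } (by
    intro a b
    apply Subtype.ext
    exact D.leibniz a.1 b.1)
  have hDE1 : DE xE = 1 := Subtype.ext hDx
  have hDEm : ∀ a : E, algebraMap E L (DE a) = D (algebraMap E L a) := fun a => rfl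
  obtain ⟨p1, p2, p3, p4, p5, p6⟩ := hPLN k E xE hxtr hE DE hDE1
  set h : E := Algebra.trace E L f with hh
  -- restriction of places
  have hover : ∀ P : DV k L, ∃ (Q : DV k E) (e : ℕ), Over Q P e := by
    intro P
    exact hV2 k E k L P (exists_ord_ne P E)
  have key : ∀ (P : DV k L) (Q : DV k E) (e : ℕ), Over Q P e → ∀ t : E, Q.ord t = 1 →
      DE t ≠ 0 → Cong P (algebraMap E L (t / DE t) * f)
        (c P / (P.ord (algebraMap E L t) : k)) := by
    intro P Q e ho t ht hDt
    have ht0 : t ≠ 0 := by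
      rintro rfl
      rw [Q.ord_zero] at ht
      omega
    have h1 := res_local hTHE hBND hV6a k L htr D f (c P) P (hloc P) (algebraMap E L t)
      (by rw [Ne, map_eq_zero]; exact ht0) (by
        rw [← hDEm, Ne, map_eq_zero]
        exact hDt) (by
        rw [ho.2, ht]
        have := ho.1
        omega)
    rw [map_div₀, hDEm]
    exact h1
  have htrace : ∀ a : E, Algebra.trace E L (algebraMap E L a * f) = a * h := by
    intro a
    rw [← Algebra.smul_def, map_smul, smul_eq_mul]
  -- finite places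
  have hfinite : ∀ Q : DV k E, 0 ≤ Q.ord xE → h ≠ 0 → 0 ≤ Q.ord h := by
    intro Q hQ hh0
    obtain ⟨t, ht, hDt, hDt0⟩ := p2 Q hQ
    have ht0 : t ≠ 0 := by
      rintro rfl
      rw [Q.ord_zero] at ht
      omega
    have h1 := hTR0 k E L Q (algebraMap E L (t / DE t) * f) (by
      rintro P ⟨e, ho⟩ hne
      have hcP : c P = 0 := by
        apply hc0
        have := ho.2 xE
        rw [hxE] at this
        rw [this]
        positivity
      have h2 := key P Q e ho t ht hDt
      rw [hcP, zero_div] at h2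
      rcases h2 with h2 | h2
      · rw [map_zero] at h2
        exact absurd h2 hne
      · rwa [map_zero, sub_zero] at h2)
    rw [htrace] at h1
    have h3 : t / DE t ≠ 0 := div_ne_zero ht0 hDt
    have h2 := h1 (mul_ne_zero h3 hh0)
    rw [Q.ord_mul _ _ h3 hh0, div_eq_mul_inv, Q.ord_mul _ _ ht0 (inv_ne_zero hDt), Q.ord_inv, ht,
      hDt0] at h2
    omega
  -- the infinite place
  obtain ⟨Q0, hQ0⟩ := p3
  obtain ⟨hQx, hQdeg⟩ := p4 Q0 hQ0
  have hxE0 : xE ≠ 0 := by
    intro h0
    rw [h0, Q0.ord_zero] at hQ0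
    omega
  have ht : Q0.ord xE⁻¹ = 1 := by
    rw [Q0.ord_inv, hQx]
    rfl
  have hDt : DE xE⁻¹ = -(xE⁻¹ ^ 2) := by
    rw [Derivation.leibniz_inv, hDE1]
    simp
  have hDt0 : DE xE⁻¹ ≠ 0 := by
    rw [hDt]
    exact neg_ne_zero.2 (pow_ne_zero _ (inv_ne_zero hxE0))
  have hquot : xE⁻¹ / DE xE⁻¹ = - xE := by
    rw [hDt]
    field_simp
  obtain ⟨hSfin, hcong⟩ := hTR1 k E L Q0 xE⁻¹ (algebraMap E L (-xE) * f)
    (fun P => c P / (P.ord (algebraMap E L xE⁻¹) : k)) ht hQdeg (by
      rintro P ⟨e, ho⟩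
      have := key P Q0 e ho xE⁻¹ ht hDt0
      rwa [hquot] at this)
  rw [htrace] at hcong
  set C : k := ∑ᶠ P : {P : DV k L // ∃ e, Over Q0 P e},
      (P.1.deg : k) * (P.1.ord (algebraMap E L xE⁻¹) : k) *
        (c P.1 / (P.1.ord (algebraMap E L xE⁻¹) : k)) with hC
  have hh0 : h = 0 := by
    by_contra hne
    have h1 := p6 h hne (fun Q hQ => hfinite Q hQ hne) Q0 hQ0
    have h2 : Q0.ord (-xE * h) < 0 := by
      rw [Q0.ord_mul _ _ (neg_ne_zero.2 hxE0) hne, Q0.ord_neg, hQx]
      omega
    have h3 : Sml Q0 (-xE * h - algebraMap k E C) := (cong_iff Q0 _ _).1 hcong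
    have h4 : 0 ≤ Q0.ord (-xE * h) := by
      have h5 : -xE * h = (-xE * h - algebraMap k E C) + algebraMap k E C := by ring
      rw [h5]
      apply DV.ord_add_nonneg
      · rcases h3 with h3 | h3
        · rw [h3, Q0.ord_zero]
        · exact h3.le
      · rw [Q0.ord_base]
    omega
  rw [hh0, mul_zero] at hcong
  have hC0 : C = 0 := by
    have h3 : Sml Q0 (0 - algebraMap k E C) := (cong_iff Q0 _ _).1 hcong
    rw [zero_sub] at h3
    have h4 := sml_neg Q0 h3
    rw [neg_neg] at h4
    exact const_of_sml Q0 h4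
  -- comparison of the sums
  have hiff : ∀ P : DV k L, P.ord x < 0 → ∃ e, Over Q0 P e := by
    intro P hP
    obtain ⟨Q, e, ho⟩ := hover P
    have h1 : Q.ord xE < 0 := by
      have h2 := ho.2 xE
      rw [hxE] at h2
      by_contra hcon
      have : 0 ≤ (e : ℤ) * Q.ord xE := mul_nonneg (by positivity) (by omega)
      omega
    have h3 := p5 Q Q0 h1 hQ0
    exact ⟨e, h3 ▸ ho⟩
  have h1 : ∑ᶠ P : DV k L, (P.deg : k) * c P =
      ∑ᶠ P : {P : DV k L // ∃ e, Over Q0 P e}, (P.1.deg : k) * c P.1 := by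
    have e1 : ∑ᶠ P : {P : DV k L // ∃ e, Over Q0 P e}, (P.1.deg : k) * c P.1 =
        ∑ᶠ (P : DV k L) (_ : ∃ e, Over Q0 P e), (P.deg : k) * c P :=
      finsum_subtype_eq_finsum_cond (fun P : DV k L => ∃ e, Over Q0 P e)
        (f := fun P : DV k L => (P.deg : k) * c P)
    rw [e1]
    refine finsum_congr fun P => ?_
    classical
    by_cases hP : ∃ e, Over Q0 P e
    · rw [finsum_eq_if, if_pos hP]
    · rw [finsum_eq_if, if_neg hP, hc0 P (by
        by_contra hcon
        exact hP (hiff P (by omega))), mul_zero]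
  rw [h1, ← hC0, hC]
  refine finsum_congr fun P => ?_
  obtain ⟨P, e, ho⟩ := P
  have h2 : ((P.ord (algebraMap E L xE⁻¹) : ℤ) : k) ≠ 0 := by
    rw [ho.2, ht, mul_one, Int.cast_natCast]
    exact Nat.cast_ne_zero.2 ho.1.ne'
  simp only
  rw [mul_assoc, mul_div_cancel₀ _ h2]

end FR
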