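import Pool.Agent.H17.FR.Targets

/-!
Modules DLG, DLL, LPQ, LPU of block B7 (MP_f2954d_ag).
-/

namespace FR

open SC

theorem dll_proof : T_DLL := by
  intro k K _ _ _ s q hq l hl
  have h1 : ∀ i, (q i * s.s l) • KaehlerDifferential.D k K (s.s i / s.s l) =
      q i • KaehlerDifferential.D k K (s.s i) -
        (q i * s.s i) • ((s.s l)⁻¹ • KaehlerDifferential.D k K (s.s l)) := by
    intro i
    rw [div_eq_mul_inv, Derivation.leibniz, Derivation.leibniz_inv, smul_add, smul_smul,
      smul_smul, smul_smul, smul_smul]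
    have e1 : q i * s.s l * (s.s l)⁻¹ = q i := by field_simp
    have e2 : q i * s.s l * s.s i * -(s.s l)⁻¹ ^ 2 = -(q i * s.s i * (s.s l)⁻¹) := by field_simp
    rw [e1, e2, neg_smul]
    abel
  simp only [h1, Finset.sum_sub_distrib, ← Finset.sum_smul, hq, one_smul]
  rfl

theorem dlg_proof : T_DLG := by
  intro k K _ _ _ s q q' hq hq'
  have h1 : dl k s q = ∑ i, ∑ j, (q' j * s.s j) • (q i • KaehlerDifferential.D k K (s.s i)) := by
    simp only [← Finset.sum_smul, hq', one_smul]
    rfl
  have h2 : dl k s q' = ∑ i, ∑ j, (q i * s.s i) • (q' j • KaehlerDifferential.D k K (s.s j)) := by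
    rw [Finset.sum_comm]
    simp only [← Finset.sum_smul, hq, one_smul]
    rfl
  rw [h1, h2, ← Finset.sum_sub_distrib]
  refine Finset.sum_congr rfl fun i _ => ?_
  rw [← Finset.sum_sub_distrib]
  refine Finset.sum_congr rfl fun j _ => ?_
  rw [Derivation.leibniz, Derivation.leibniz]
  simp only [smul_add, smul_smul]
  have e1 : q' j * s.s j * q i = q i * s.s j * q' j := by ring
  have e2 : q i * s.s j * s.s i = q i * s.s i * s.s j := by ring
  rw [e1, e2]
  abel

theorem lpq_proof : T_LPQ := by
  intro k K _ _ _ W s hs y hy hy0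
  obtain ⟨n, hn⟩ := hs
  obtain ⟨q, hq, hq1⟩ := hn (y ^ n) (Submodule.pow_mem_pow W hy n)
  have hyn : y ^ n ≠ 0 := pow_ne_zero _ hy0
  refine ⟨n, fun i => q i / y ^ n, fun i j => ?_, ?_⟩
  · have : q i / y ^ n * s.s j * y ^ n = q i * s.s j := by field_simp
    rw [this]
    exact hq i j
  · have : ∑ i, q i / y ^ n * s.s i = (∑ i, q i * s.s i) / y ^ n := by
      rw [Finset.sum_div]
      refine Finset.sum_congr rfl fun i _ => ?_
      ring
    rw [this, hq1, div_self hyn]

theorem pow_span_image (k K k' K' : Type) [Field k] [Field K] [Algebra k K] [Field k'] [Field K']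
    [Algebra k' K'] [Algebra K K'] [Algebra k k'] [Algebra k K'] [IsScalarTower k K K']
    [IsScalarTower k k' K'] (W : Submodule k K) (n : ℕ) :
    (Submodule.span k' (algebraMap K K' '' (W : Set K))) ^ n =
      Submodule.span k' (algebraMap K K' '' ((W ^ n : Submodule k K) : Set K)) := by
  induction n with
  | zero =>
    rw [pow_zero, pow_zero, Submodule.one_eq_span, Submodule.one_eq_span]
    apply le_antisymm
    · rw [Submodule.span_le, Set.singleton_subset_iff]
      apply Submodule.subset_span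
      exact ⟨1, Submodule.mem_span_singleton_self 1, map_one _⟩
    · rw [Submodule.span_le]
      rintro _ ⟨x, hx, rfl⟩
      obtain ⟨c, rfl⟩ := Submodule.mem_span_singleton.1 hx
      rw [SetLike.mem_coe, Submodule.mem_span_singleton]
      refine ⟨algebraMap k k' c, ?_⟩
      rw [Algebra.smul_def, mul_one, Algebra.smul_def, mul_one,
        ← IsScalarTower.algebraMap_apply k k' K', ← IsScalarTower.algebraMap_apply k K K']
  | succ n ih =>
    rw [pow_succ, pow_succ, ih, Submodule.span_mul_span]
    apply le_antisymm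
    · rw [Submodule.span_le]
      rintro _ ⟨_, ⟨x, hx, rfl⟩, _, ⟨y, hy, rfl⟩, rfl⟩
      apply Submodule.subset_span
      exact ⟨x * y, Submodule.mul_mem_mul hx hy, map_mul _ _ _⟩
    · rw [Submodule.span_le]
      rintro _ ⟨x, hx, rfl⟩
      have hx' : x ∈ W ^ n * W := hx
      rw [SetLike.mem_coe]
      induction hx' using Submodule.mul_induction_on' with
      | mem_mul_mem a ha b hb =>
        apply Submodule.subset_span
        rw [map_mul]
        exact ⟨_, ⟨a, ha, rfl⟩, _, ⟨b, hb, rfl⟩, rfl⟩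
      | add a ha b hb h1 h2 =>
        rw [map_add]
        exact Submodule.add_mem _ (h1 ha) (h2 hb)

theorem lpu_proof : T_LPU := by
  intro k K k' K' _ _ _ _ _ _ _ _ _ _ _ W s hs
  obtain ⟨n, hn⟩ := hs
  refine ⟨n, fun x hx => ?_⟩
  rw [pow_span_image] at hx ⊢
  induction hx using Submodule.span_induction with
  | mem x hx =>
    obtain ⟨y, hy, rfl⟩ := hx
    obtain ⟨q, hq, hq1⟩ := hn y hy
    refine ⟨fun i => algebraMap K K' (q i), fun i j => ?_, ?_⟩
    · apply Submodule.subset_span
      exact ⟨q i * s.s j, hq i j, map_mul _ _ _⟩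
    · rw [← hq1, map_sum]
      refine Finset.sum_congr rfl fun i _ => ?_
      rw [map_mul]
  | zero => exact ⟨fun _ => 0, fun i j => by rw [zero_mul]; exact Submodule.zero_mem _, by simp⟩
  | add x y _ _ hx hy =>
    obtain ⟨q, hq, hq1⟩ := hx
    obtain ⟨q', hq', hq1'⟩ := hy
    refine ⟨fun i => q i + q' i, fun i j => ?_, ?_⟩
    · rw [add_mul]
      exact Submodule.add_mem _ (hq i j) (hq' i j)
    · simp only [add_mul, Finset.sum_add_distrib, hq1, hq1']
  | smul c x _ hx =>
    obtain ⟨q, hq, hq1⟩ := hx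
    refine ⟨fun i => c • q i, fun i j => ?_, ?_⟩
    · rw [smul_mul_assoc]
      exact Submodule.smul_mem _ _ (hq i j)
    · simp only [smul_mul_assoc, ← Finset.smul_sum, hq1]

end FR
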