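import Pool.Agent.H17.FR.CLS
import Pool.Agent.H17.FR.FR
import Pool.Agent.H17.FR.RES
import Pool.Agent.H17.FR.DET
import Pool.Agent.H17.FR.PLN
import Pool.Agent.H17.FR.Small
import Pool.Agent.H17.FR.GLP
import Pool.Agent.H17.FR.GFD
import Pool.Agent.H90.FR.CEC
import Pool.Agent.H90.FR.EXA
import Pool.Agent.H90.FR.NOE
import Pool.Agent.H90.FR.QFN
import Pool.Agent.H88.FRM.MGE
import Pool.Agent.H88.FRM.DUV
import Pool.Agent.H56.FR.LPM
import Pool.Agent.H56.FR.NNS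
import Pool.Agent.H62.FR.BND
import Pool.Agent.H62.FR.TR0
import Pool.Agent.H62.FR.TR1
import Pool.Agent.H97.FR.CHX
import Pool.Agent.H97.FR.DER
import Pool.Agent.H97.FR.THE
import Pool.Agent.H27.FR.CEN
import Pool.Agent.H50.FR.PLC
import Pool.Agent.H36.SC.V6
import Pool.Agent.H36.SC.M1
import Pool.Agent.H80.SC.G1
import Pool.Agent.H80.SC.G2
import Pool.Agent.H56.SC.G2x
import Pool.Agent.H18.KN.G3i
import Pool.Agent.H18.KN.G3t
import Pool.Agent.H13.SC.G0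
import Pool.Agent.H20.SC.G4
import Pool.Agent.H76.KN.V4
import Pool.Agent.H76.KN.V5
import Pool.Agent.H64.SC.Api2
import Pool.Agent.H12.BX.XCF
import Pool.Agent.H4.SCX.XA

/-! Block B7 (finite rank of `N^1`), assembled without hypotheses. -/

namespace FR

open SC

theorem tV5 : T_V5 := Pool.Agent.H76.KN.v5
theorem tV4 : T_V4 := Pool.Agent.H76.KN.v4
theorem tV6a : T_V6a := Pool.Agent.H36.SC.v6a tV5
theorem tV6b : T_V6b := Pool.Agent.H36.SC.v6b tV5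
theorem tG1a : T_G1a := Pool.Agent.H80.SCG.g1a
theorem tG1c : T_G1c := Pool.Agent.H80.SCG.g1c
theorem tG2 : T_G2 := Pool.Agent.H80.SCG.g2
theorem tG2r : T_G2r := Pool.Agent.H56.SC.g2r tG2 tG1a tG1c
theorem tM1 : T_M1 := Pool.Agent.H36.SC.m1 t_V2 t_V2r tV5 SC.H13.g0 tG1a tG2
  (SC.H20.g4 t_V2r tG1c) Pool.Agent.H80.SCG.g4t SC.H20.g4u

theorem tCEC : T_CEC := Pool.Agent.H90.FRM.cec (Pool.Agent.H90.FRM.qfn Pool.Agent.H90.FRM.noe)
  Pool.Agent.H90.FRM.exa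

theorem tCLS : T_CLS := cls_proof Pool.Agent.H56.FR.nn tCEC Pool.Agent.H88.FRM.mge
  (Pool.Agent.H88.FRM.cij Pool.Agent.H88.FRM.duv Pool.Agent.H88.FRM.mge) Pool.Agent.H88.FRM.lcf
  dlg_proof lpq_proof

theorem tRES : T_RES := res_proof Pool.Agent.H97.FR.the Pool.Agent.H62.FR.bnd
  Pool.Agent.H62.FR.tr0 Pool.Agent.H62.FR.tr1 (pln_proof tV4) t_V2 tV6a

/-- The finite rank theorem. -/
theorem tFR : T_FR := fr_proof tCLS Pool.Agent.H27.FR.cen (H50FR.plc dll_proof)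
  (Pool.Agent.H97.FR.chx tV6a) Pool.Agent.H97.FR.der tRES tV6b

theorem tDET : T_DET := det_proof tFR lpu_proof tG1a tG2r Pool.Agent.H18.KN.g3i
  Pool.Agent.H18.KN.g3t tM1

theorem tGLP : T_GLP := glp_proof Pool.Agent.H56.FR.lpm Pool.Agent.H12.BX.xf

theorem tFDX : T_FDX := fdx_proof tDET tGLP Pool.Agent.H4.SCX.xi

theorem tGFD : T_GFD := gfd_proof hik_proof

end FR
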