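import Pool.Agent.H17.FR.Defs

/-!
Finite rank of the Néron-Severi space (MP_f2954d_ag, block B7): targets.
-/

namespace FR

open SC

/-! ### Part I: finite dimensional cohomology with three charts -/

/-- index set: position of the generator and exponents -/
abbrev Ix (m : ℕ) : Type := Fin m × (Fin 3 → ℤ)

/-- the index set of the degree zero part with poles along `σ` -/
def Ind (m : ℕ) (D : ℤ) (σ : Finset (Fin 3)) : Set (Ix m) :=
  {x | ∑ j, x.2 j = - D ∧ ∀ j, j ∉ σ → 0 ≤ x.2 j}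

/-- evaluation -/
noncomputable def ev (k : Type) {K V : Type} [Field k] [Field K] [AddCommGroup V] [Module k V]
    [Module K V] {m : ℕ} (w : Fin 3 → K) (g : Fin m → V) : (Ix m →₀ k) →ₗ[k] V :=
  Finsupp.linearCombination k fun x : Ix m => mon w x.2 • g x.1

/-- homogeneous relations of degree `d` -/
def Rel (k : Type) {K V : Type} [Field k] [Field K] [Algebra k K] [AddCommGroup V] [Module K V]
    {m : ℕ} (w : Fin 3 → K) (g : Fin m → V) (d : ℕ) : Set (Fin m → MvPolynomial (Fin 3) k) :=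
  {p | (∀ l, (p l).IsHomogeneous d) ∧ ∑ l, MvPolynomial.aeval w (p l) • g l = 0}

/-- NOE: the homogeneous relations are finitely generated -/
def T_NOE : Prop := ∀ (k K V : Type) [Field k] [Field K] [Algebra k K] [AddCommGroup V]
  [Module K V] (m : ℕ) (w : Fin 3 → K) (g : Fin m → V),
  ∃ (r : ℕ) (b : Fin r → ℕ) (t : Fin r → Fin m → MvPolynomial (Fin 3) k),
    (∀ i, t i ∈ Rel k w g (b i)) ∧ ∀ (d : ℕ), ∀ p ∈ Rel k w g d,
      ∃ h : Fin r → MvPolynomial (Fin 3) k,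
        (∀ i, h i = 0 ∨ (b i ≤ d ∧ (h i).IsHomogeneous (d - b i))) ∧
        ∀ l, p l = ∑ i, h i * t i l

/-- QFN: the cokernel is finite dimensional -/
def T_QFN : Prop := ∀ (k K V : Type) [Field k] [Field K] [Algebra k K] [AddCommGroup V]
  [Module k V] [Module K V] [IsScalarTower k K V] (m : ℕ) (w : Fin 3 → K) (g : Fin m → V) (D : ℤ),
  (∀ i, w i ≠ 0) →
  ∃ S : Set (Ix m →₀ k), S.Finite ∧
    Finsupp.supported k k (Ind m D Finset.univ) ⊓ LinearMap.ker (ev k w g) ≤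
      Submodule.span k S ⊔
      ((Finsupp.supported k k (Ind m D {0, 1}) ⊓ LinearMap.ker (ev k w g)) ⊔
      (Finsupp.supported k k (Ind m D {0, 2}) ⊓ LinearMap.ker (ev k w g)) ⊔
      (Finsupp.supported k k (Ind m D {1, 2}) ⊓ LinearMap.ker (ev k w g)))

/-- EXA: cocycles of the free complex are coboundaries -/
def T_EXA : Prop := ∀ (k : Type) [Field k] (m : ℕ) (D : ℤ) (x y z : Ix m →₀ k),
  x ∈ Finsupp.supported k k (Ind m D {0, 1}) → y ∈ Finsupp.supported k k (Ind m D {0, 2}) →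
  z ∈ Finsupp.supported k k (Ind m D {1, 2}) → x - y + z = 0 →
  ∃ a ∈ Finsupp.supported k k (Ind m D {0}), ∃ b ∈ Finsupp.supported k k (Ind m D {1}),
    ∃ c ∈ Finsupp.supported k k (Ind m D {2}), x = b - a ∧ y = c - a ∧ z = c - b

/-- CEC: the first cohomology is finite dimensional -/
def T_CEC : Prop := ∀ (k K V : Type) [Field k] [Field K] [Algebra k K] [AddCommGroup V]
  [Module k V] [Module K V] [IsScalarTower k K V] (w : Fin 3 → K) (G : Submodule k V) (D : ℤ)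
  [Module.Finite k G], (∀ i, w i ≠ 0) → ∃ r : ℕ, ∀ x y z : Fin (r + 1) → V,
  (∀ l, x l ∈ FF w G D {0, 1} ∧ y l ∈ FF w G D {0, 2} ∧ z l ∈ FF w G D {1, 2} ∧
    x l - y l + z l = 0) →
  ∃ a : Fin (r + 1) → k, a ≠ 0 ∧ ∃ f : Fin 3 → V, (∀ i, f i ∈ FF w G D {i}) ∧
    ∑ l, a l • x l = f 1 - f 0 ∧ ∑ l, a l • y l = f 2 - f 0 ∧ ∑ l, a l • z l = f 2 - f 1

/-! ### Part II: the surface -/

/-- HOM: difference of the values of a homogeneous polynomial -/
def T_HOM : Prop := ∀ (k K : Type) [Field k] [Field K] [Algebra k K] (W : Submodule k K)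
  (m e : ℕ) (F : MvPolynomial (Fin m) k), F.IsHomogeneous (e + 1) →
  ∀ u v : Fin m → K, (∀ i, u i ∈ W) → (∀ i, v i ∈ W) →
  MvPolynomial.aeval u F - MvPolynomial.aeval v F ∈
    Submodule.span k (Set.range fun i => u i - v i) * W ^ e

/-- RLT: a homogeneous relation between `m ≥ 4` elements -/
def T_RLT : Prop := ∀ (k K : Type) [Field k] [Field K] [Algebra k K] (m : ℕ) (y : Fin m → K),
  Algebra.trdeg k K ≤ 2 → 4 ≤ m → ∃ (e : ℕ) (F : MvPolynomial (Fin m) k), F ≠ 0 ∧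
    F.IsHomogeneous (e + 1) ∧ MvPolynomial.aeval y F = 0

/-- NNS: one step of the linear Noether normalisation -/
def T_NNS : Prop := ∀ (k K : Type) [Field k] [Infinite k] [Field K] [Algebra k K]
  (W Y : Submodule k K) [Module.Finite k W], Algebra.trdeg k K ≤ 2 → Y ≤ W →
  4 ≤ Module.finrank k Y → (∃ n, W ^ (n + 1) ≤ Y * W ^ n) →
  ∃ Y' ≤ Y, Module.finrank k Y' < Module.finrank k Y ∧ ∃ n, W ^ (n + 1) ≤ Y' * W ^ n

/-- NN: linear Noether normalisation -/
def T_NN : Prop := ∀ (k K : Type) [Field k] [Infinite k] [Field K] [Algebra k K]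
  (W : Submodule k K) [Module.Finite k W], Algebra.trdeg k K ≤ 2 → W ≠ ⊥ →
  ∃ w : Fin 3 → K, (∀ i, w i ≠ 0 ∧ w i ∈ W) ∧
    ∃ n, W ^ (n + 1) ≤ Submodule.span k (Set.range w) * W ^ n

/-- MGE: the forms `MM W n` are generated by those of one degree -/
def T_MGE : Prop := ∀ (k K : Type) [Field k] [Field K] [Algebra k K] (W : Submodule k K)
  [Module.Finite k W] (w : Fin 3 → K) (n₀ : ℕ), (∀ i, w i ≠ 0 ∧ w i ∈ W) →
  W ^ (n₀ + 1) ≤ Submodule.span k (Set.range w) * W ^ n₀ →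
  Module.Finite k (MM W n₀) ∧ ∀ n, n₀ ≤ n → ∀ η ∈ MM W n, ∀ α : Fin 3 → ℤ,
    ∑ j, α j = - (n + 2 : ℤ) → ∀ σ : Finset (Fin 3), (∀ j, j ∉ σ → 0 ≤ α j) →
    mon w α • η ∈ FF w (MM W n₀) (n₀ + 2) σ

/-- DUV: differentials of quotients of forms -/
def T_DUV : Prop := ∀ (k K : Type) [Field k] [Field K] [Algebra k K] (W : Submodule k K) (y : K),
  y ∈ W → y ≠ 0 → ∀ n, ∀ v ∈ W ^ n,
  y ^ (n + 1) • KaehlerDifferential.D k K (v / y ^ n) ∈ MM W (n - 1)

/-- CIJ: `α dβ` with `α` regular on one chart and `β` regular on another one -/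
def T_CIJ : Prop := ∀ (k K : Type) [Field k] [Field K] [Algebra k K] (W : Submodule k K)
  [Module.Finite k W] (w : Fin 3 → K) (n₀ : ℕ), (∀ i, w i ≠ 0 ∧ w i ∈ W) →
  W ^ (n₀ + 1) ≤ Submodule.span k (Set.range w) * W ^ n₀ →
  ∀ (i j : Fin 3) (n m : ℕ) (a b : K), a * w i ^ n ∈ W ^ n → b * w j ^ m ∈ W ^ m →
  a • KaehlerDifferential.D k K b ∈ FF w (MM W n₀) (n₀ + 2) {i, j}

/-- LCF: cochains are regular on the charts -/
def T_LCF : Prop := ∀ (k K : Type) [Field k] [Field K] [Algebra k K] (W : Submodule k K)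
  (w : Fin 3 → K) (n₀ : ℕ), (∀ i, w i ≠ 0 ∧ w i ∈ W) → ∀ i,
  FF w (MM W n₀) (n₀ + 2) {i} ≤ LocF W (w i)

/-- DLG: the difference of two logarithmic forms of a system -/
def T_DLG : Prop := ∀ (k K : Type) [Field k] [Field K] [Algebra k K] (s : Sys K)
  (q q' : Fin s.r → K), ∑ i, q i * s.s i = 1 → ∑ i, q' i * s.s i = 1 →
  dl k s q - dl k s q' = ∑ i, ∑ j, ((q i * s.s j) • KaehlerDifferential.D k K (q' j * s.s i) -
    (q i * s.s i) • KaehlerDifferential.D k K (q' j * s.s j))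

/-- DLL: the logarithmic form is the logarithmic differential of each element up to regular
forms -/
def T_DLL : Prop := ∀ (k K : Type) [Field k] [Field K] [Algebra k K] (s : Sys K)
  (q : Fin s.r → K), ∑ i, q i * s.s i = 1 → ∀ l, s.s l ≠ 0 →
  dl k s q - (s.s l)⁻¹ • KaehlerDifferential.D k K (s.s l) =
    ∑ i, (q i * s.s l) • KaehlerDifferential.D k K (s.s i / s.s l)

/-- LPQ: partitions on charts -/
def T_LPQ : Prop := ∀ (k K : Type) [Field k] [Field K] [Algebra k K] (W : Submodule k K)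
  (s : Sys K), LP W s → ∀ y ∈ W, y ≠ 0 → ∃ (n : ℕ) (q : Fin s.r → K), Part W y n s q

/-- CLS: the class of a locally principal system lives in a finite dimensional space -/
def T_CLS : Prop := ∀ (k K : Type) [Field k] [CharZero k] [Field K] [Algebra k K]
  (W : Submodule k K) [Module.Finite k W], Algebra.trdeg k K ≤ 2 → W ≠ ⊥ →
  ∃ (w : Fin 3 → K) (n₀ r : ℕ), (∀ i, w i ≠ 0 ∧ w i ∈ W) ∧
    W ^ (n₀ + 1) ≤ Submodule.span k (Set.range w) * W ^ n₀ ∧
    ∀ s : Fin (r + 1) → Sys K, (∀ l, LP W (s l)) →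
    ∃ a : Fin (r + 1) → k, a ≠ 0 ∧ ∃ ω : Ω[K⁄k], ∀ i : Fin 3,
      ∃ (n : Fin (r + 1) → ℕ) (q : ∀ l, Fin (s l).r → K), (∀ l, Part W (w i) (n l) (s l) (q l)) ∧
        ω - ∑ l, a l • dl k (s l) (q l) ∈ LocF W (w i)

/-! ### Part III: curves -/

/-- BND: derivations are bounded on valuation rings of curves -/
def T_BND : Prop := ∀ (k L : Type) [Field k] [CharZero k] [Field L] [Algebra k L]
  [Algebra.EssFiniteType k L], Algebra.trdeg k L = 1 → ∀ (D : Derivation k L L) (P : DV k L),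
  ∃ C : ℤ, ∀ a : L, 0 ≤ P.ord a → D a ≠ 0 → C ≤ P.ord (D a)

/-- THE: the logarithmic derivation `θ` -/
def T_THE : Prop := ∀ (k L : Type) [Field k] [CharZero k] [Field L] [Algebra k L]
  (θ : Derivation k L L) (P : DV k L) (t : L), Algebra.IsAlgebraic k P.Res →
  (∃ C : ℤ, ∀ a : L, 0 ≤ P.ord a → θ a ≠ 0 → C ≤ P.ord (θ a)) → θ t = t → t ≠ 0 → 0 < P.ord t →
  (∀ a : L, 0 ≤ P.ord a → θ a ≠ 0 → 0 < P.ord (θ a)) ∧
  ∀ g : L, g ≠ 0 → Cong P (θ g / g) ((P.ord g : k) / (P.ord t : k))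

/-- INT: elements which are nonnegative at all valuations over `Q` are integral -/
def T_INT : Prop := ∀ (k E L : Type) [Field k] [CharZero k] [Field E] [Field L] [Algebra k E]
  [Algebra k L] [Algebra E L] [IsScalarTower k E L] [FiniteDimensional E L] (Q : DV k E) (y : L),
  (∀ P : DV k L, (∃ e, Over Q P e) → 0 ≤ P.ord y) → IsIntegral Q.vs y

/-- TR0: the trace of an element which is positive at all valuations over `Q` -/
def T_TR0 : Prop := ∀ (k E L : Type) [Field k] [CharZero k] [Field E] [Field L] [Algebra k E]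
  [Algebra k L] [Algebra E L] [IsScalarTower k E L] [FiniteDimensional E L] (Q : DV k E) (g : L),
  (∀ P : DV k L, (∃ e, Over Q P e) → g ≠ 0 → 0 < P.ord g) →
  Algebra.trace E L g ≠ 0 → 0 < Q.ord (Algebra.trace E L g)

/-- TR1: the trace of an element which is congruent to constants at all valuations over a rational
place `Q` -/
def T_TR1 : Prop := ∀ (k E L : Type) [Field k] [CharZero k] [Field E] [Field L] [Algebra k E]
  [Algebra k L] [Algebra E L] [IsScalarTower k E L] [FiniteDimensional E L] (Q : DV k E)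
  (t : E) (g : L) (c : DV k L → k), Q.ord t = 1 → Q.deg = 1 →
  (∀ P : DV k L, (∃ e, Over Q P e) → Cong P g (c P)) →
  {P : DV k L | ∃ e, Over Q P e}.Finite ∧
  Cong Q (Algebra.trace E L g)
    (∑ᶠ P : {P : DV k L // ∃ e, Over Q P e},
      (P.1.deg : k) * (P.1.ord (algebraMap E L t) : k) * c P.1)

/-- PLN: discrete valuations of the rational function field `k(x)` -/
def T_PLN : Prop := ∀ (k E : Type) [Field k] [CharZero k] [Field E] [Algebra k E] (x : E),
  Transcendental k x → IntermediateField.adjoin k {x} = ⊤ → ∀ D : Derivation k E E, D x = 1 →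
  (∀ Q : DV k E, Module.Finite k Q.Res) ∧
  (∀ Q : DV k E, 0 ≤ Q.ord x → ∃ t : E, Q.ord t = 1 ∧ D t ≠ 0 ∧ Q.ord (D t) = 0) ∧
  (∃ Q : DV k E, Q.ord x < 0) ∧
  (∀ Q : DV k E, Q.ord x < 0 → Q.ord x = -1 ∧ Q.deg = 1) ∧
  (∀ Q Q' : DV k E, Q.ord x < 0 → Q'.ord x < 0 → Q = Q') ∧
  (∀ h : E, h ≠ 0 → (∀ Q : DV k E, 0 ≤ Q.ord x → 0 ≤ Q.ord h) →
    ∀ Q : DV k E, Q.ord x < 0 → Q.ord h ≤ 0)

/-- CHX: a function with poles at given places -/
def T_CHX : Prop := ∀ (k L : Type) [Field k] [CharZero k] [Field L] [Algebra k L]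
  [Algebra.EssFiniteType k L], Algebra.trdeg k L = 1 → ∀ S : Set (DV k L), S.Finite →
  ∃ x : L, Transcendental k x ∧ FiniteDimensional (IntermediateField.adjoin k {x}) L ∧
    ∀ P ∈ S, P.ord x < 0

/-- DER: the derivation `d/dx` -/
def T_DER : Prop := ∀ (k L : Type) [Field k] [CharZero k] [Field L] [Algebra k L] (x : L),
  Transcendental k x → FiniteDimensional (IntermediateField.adjoin k {x}) L →
  ∃ D : Derivation k L L, D x = 1 ∧
    ∀ a ∈ IntermediateField.adjoin k {x}, D a ∈ IntermediateField.adjoin k {x}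

/-- RES: the residue theorem for differential forms with simple poles and constant residues which
are supported at the poles of `x` -/
def T_RES : Prop := ∀ (k L : Type) [Field k] [CharZero k] [Field L] [Algebra k L]
  [Algebra.EssFiniteType k L], Algebra.trdeg k L = 1 → ∀ (x : L) (D : Derivation k L L) (f : L)
  (c : DV k L → k), Transcendental k x → FiniteDimensional (IntermediateField.adjoin k {x}) L →
  D x = 1 → (∀ a ∈ IntermediateField.adjoin k {x}, D a ∈ IntermediateField.adjoin k {x}) →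
  (∀ P : DV k L, 0 ≤ P.ord x → c P = 0) →
  (∀ P : DV k L, ∃ (r : ℕ) (a : Fin r → k) (g : Fin r → L), (∀ l, g l ≠ 0) ∧
    ∑ l, a l * (P.ord (g l) : k) = c P ∧ f - ∑ l, a l • (D (g l) / g l) ∈ Reg P D) →
  ∑ᶠ P : DV k L, (P.deg : k) * c P = 0

/-! ### Part IV: assembly -/

/-- CEN: every valuation has a center on one of the three charts -/
def T_CEN : Prop := ∀ (k k' K L : Type) [Field k] [Field k'] [Field K] [Field L] [Algebra k K]
  [Algebra k' L] [Algebra K L] [Algebra k k'] [Algebra k L] [IsScalarTower k K L]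
  [IsScalarTower k k' L] (W : Submodule k K) [Module.Finite k W] (w : Fin 3 → K) (n₀ : ℕ),
  (∀ i, w i ≠ 0 ∧ w i ∈ W) →
  W ^ (n₀ + 1) ≤ Submodule.span k (Set.range w) * W ^ n₀ →
  ∀ P : DV k' L, ∃ i, ∀ u ∈ W, u ≠ 0 →
    P.ord (algebraMap K L (w i)) ≤ P.ord (algebraMap K L u)

/-- PLC: at a place centered on the chart `y ≠ 0` -/
def T_PLC : Prop := ∀ (k k' K L : Type) [Field k] [Field k'] [Field K] [Field L] [Algebra k K]
  [Algebra k' L] [Algebra K L] [Algebra k k'] [Algebra k L] [IsScalarTower k K L]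
  [IsScalarTower k k' L] (W : Submodule k K) (y : K) (P : DV k' L) (D : Derivation k' L L)
  (δ : Ω[K⁄k] →+ L), (∀ (a : K) (η : Ω[K⁄k]), δ (a • η) = algebraMap K L a * δ η) →
  (∀ a : K, δ (KaehlerDifferential.D k K a) = D (algebraMap K L a)) → y ∈ W → y ≠ 0 →
  (∀ u ∈ W, u ≠ 0 → P.ord (algebraMap K L y) ≤ P.ord (algebraMap K L u)) →
  (∀ η ∈ LocF W y, δ η ∈ Reg P D) ∧
  ∀ (n : ℕ) (s : Sys K) (q : Fin s.r → K), Part W y n s q →
    ∃ j, s.s j ≠ 0 ∧ P.ord (algebraMap K L (s.s j)) = P.mo (s.up L) ∧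
      δ (dl k s q) - D (algebraMap K L (s.s j)) / algebraMap K L (s.s j) ∈ Reg P D

/-- FR: finite rank on surfaces -/
def T_FR : Prop := ∀ (k K : Type) [Field k] [CharZero k] [Field K] [Algebra k K]
  (W : Submodule k K) [Module.Finite k W], Algebra.trdeg k K ≤ 2 → W ≠ ⊥ →
  ∃ r : ℕ, ∀ s : Fin (r + 1) → Sys K, (∀ l, LP W (s l)) →
  ∃ a : Fin (r + 1) → k, a ≠ 0 ∧ ∀ (k' L : Type) [Field k'] [Field L] [Algebra k' L] [Algebra K L]
    [Algebra k k'] [Algebra k L] [IsScalarTower k K L] [IsScalarTower k k' L]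
    [Algebra.EssFiniteType k' L], Algebra.trdeg k' L = 1 →
    ∑ l, algebraMap k k' (a l) *
      ((∑ᶠ P : DV k' L, (P.deg : ℤ) * P.mo ((s l).up L) : ℤ) : k') = 0

/-- LPM: local principality from the maximal ideals of the charts -/
def T_LPM : Prop := ∀ (k K : Type) [Field k] [Field K] [Algebra k K] (N : ℕ)
  (w : Fin (N + 1) → K) (s : Sys K), (∃ i, w i ≠ 0) →
  (∀ i, w i ≠ 0 → ∀ p : Ideal (Algebra.adjoin k (Set.range fun j => w j / w i)), p.IsMaximal →
    ∃ a, s.s a ≠ 0 ∧ ∀ b, ∃ c d : Algebra.adjoin k (Set.range fun j => w j / w i),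
      d ∉ p ∧ (d : K) * s.s b = c * s.s a) → LP (Submodule.span k (Set.range w)) s

/-- LPU: local principality under extension of the base field -/
def T_LPU : Prop := ∀ (k K k' K' : Type) [Field k] [Field K] [Algebra k K] [Field k'] [Field K']
  [Algebra k' K'] [Algebra K K'] [Algebra k k'] [Algebra k K'] [IsScalarTower k K K']
  [IsScalarTower k k' K'] (W : Submodule k K) (s : Sys K), LP W s →
  LP (Submodule.span k' (algebraMap K K' '' (W : Set K))) (s.up K')

/-- DET: the matrix of intersection numbers has bounded rank -/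
def T_DET : Prop := ∀ (k K : Type) [Field k] [CharZero k] [Field K] [Algebra k K]
  [Algebra.EssFiniteType k K] (J : Type) [Fintype J] (H : J → Sys K) (W : Submodule k K)
  [Module.Finite k W], W ≠ ⊥ → (∀ j, (H j).Nz) →
  Algebra.trdeg k K = (Fintype.card J + 2 : ℕ) → ∃ r : ℕ,
  ∀ s t : Fin (r + 1) → Sys K, (∀ l, (s l).Nz ∧ LP W (s l)) → (∀ l, (t l).Nz) →
  (Matrix.of fun i j => (Idx (Sum.elim (fun _ : Unit => s i)
    (Sum.elim (fun _ : Unit => t j) H)) k : ℤ)).det = 0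

end FR
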