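import Pool.Agent.H17.FR.Targets

/-!
Module CLS of block B7 (MP_f2954d_ag): the class of a locally principal system.
-/

namespace FR

open SC

theorem cls_proof (hNN : T_NN) (hCEC : T_CEC) (hMGE : T_MGE) (hCIJ : T_CIJ) (hLCF : T_LCF)
    (hDLG : T_DLG) (hLPQ : T_LPQ) : T_CLS := by
  intro k K _ _ _ _ W _ htr hW
  obtain ⟨w, hw, n₀, hn₀⟩ := hNN k K W htr hW
  have hfin : Module.Finite k (MM W n₀) := (hMGE k K W w n₀ hw hn₀).1
  obtain ⟨r, hr⟩ := hCEC k K (Ω[K⁄k]) w (MM W n₀) (n₀ + 2) (fun i => (hw i).1)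
  refine ⟨w, n₀, r, hw, hn₀, fun s hs => ?_⟩
  choose n q hq using fun (i : Fin 3) (l : Fin (r + 1)) =>
    hLPQ k K W (s l) (hs l) (w i) (hw i).2 (hw i).1
  have hdiff : ∀ (i j : Fin 3) (l : Fin (r + 1)), dl k (s l) (q i l) - dl k (s l) (q j l) ∈
      FF w (MM W n₀) (n₀ + 2) {i, j} := by
    intro i j l
    rw [hDLG k K (s l) (q i l) (q j l) (hq i l).2 (hq j l).2]
    refine Submodule.sum_mem _ fun a _ => Submodule.sum_mem _ fun b _ => ?_
    refine Submodule.sub_mem _ ?_ ?_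
    · exact hCIJ k K W w n₀ hw hn₀ i j (n i l) (n j l) _ _ ((hq i l).1 a b) ((hq j l).1 b a)
    · exact hCIJ k K W w n₀ hw hn₀ i j (n i l) (n j l) _ _ ((hq i l).1 a a) ((hq j l).1 b b)
  obtain ⟨a, ha, f, hf, h01, h02, h12⟩ := hr
    (fun l => dl k (s l) (q 1 l) - dl k (s l) (q 0 l))
    (fun l => dl k (s l) (q 2 l) - dl k (s l) (q 0 l))
    (fun l => dl k (s l) (q 2 l) - dl k (s l) (q 1 l)) (fun l => by
      refine ⟨?_, ?_, ?_, by abel⟩
      · have := hdiff 1 0 l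
        rwa [Finset.pair_comm] at this
      · have := hdiff 2 0 l
        rwa [Finset.pair_comm] at this
      · have := hdiff 2 1 l
        rwa [Finset.pair_comm] at this)
  simp only [smul_sub, Finset.sum_sub_distrib] at h01 h02 h12
  refine ⟨a, ha, ∑ l, a l • dl k (s l) (q 0 l) - f 0, fun i => ⟨n i, q i, hq i, ?_⟩⟩
  have key : ∀ i, ∑ l, a l • dl k (s l) (q 0 l) - f 0 - ∑ l, a l • dl k (s l) (q i l) = - f i := by
    intro i
    fin_cases i
    · simp
    · simp only [Fin.mk_one]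
      have : ∑ l, a l • dl k (s l) (q 1 l) = ∑ l, a l • dl k (s l) (q 0 l) + (f 1 - f 0) := by
        rw [← h01]; abel
      rw [this]; abel
    · simp only [Fin.reduceFinMk]
      have : ∑ l, a l • dl k (s l) (q 2 l) = ∑ l, a l • dl k (s l) (q 0 l) + (f 2 - f 0) := by
        rw [← h02]; abel
      rw [this]; abel
  rw [key]
  exact Submodule.neg_mem _ (hLCF k K W w n₀ hw i (hf i))

end FR
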