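import Pool.Agent.H93.SC.Targets

/-!
Finite rank of the Néron-Severi space (MP_f2954d_ag, block B7): definitions.

`W` is a finite dimensional `k`-subspace of the field `K` (the linear forms of a projective model),
`W ^ n` is the space of forms of degree `n`.
-/

namespace FR

open SC

section

variable {k K : Type} [Field k] [Field K] [Algebra k K]

/-- the system `s` is locally principal on the model `W`, in degree `n`: every form `x` of degree
`n` is a sum of products `q i * s i` where all `q i * s j` are forms of degree `n` -/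
def LPn (W : Submodule k K) (n : ℕ) (s : Sys K) : Prop :=
  ∀ x ∈ W ^ n, ∃ q : Fin s.r → K, (∀ i j, q i * s.s j ∈ W ^ n) ∧ ∑ i, q i * s.s i = x

/-- the system `s` is locally principal on the projective model `W` -/
def LP (W : Submodule k K) (s : Sys K) : Prop := ∃ n, LPn W n s

/-- `q` is a partition for `s` on the chart `y ≠ 0` -/
def Part (W : Submodule k K) (y : K) (n : ℕ) (s : Sys K) (q : Fin s.r → K) : Prop :=
  (∀ i j, q i * s.s j * y ^ n ∈ W ^ n) ∧ ∑ i, q i * s.s i = 1

end

section

variable {k K V : Type} [Field k] [Field K] [Algebra k K] [AddCommGroup V] [Module k V]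
  [Module K V] [IsScalarTower k K V]

/-- the monomial `w ^ α` -/
noncomputable def mon (w : Fin 3 → K) (α : Fin 3 → ℤ) : K := ∏ j, w j ^ α j

/-- the span of the `w ^ α g` with `|α| = - D`, `α j ≥ 0` for `j` not in `σ`, `g` in `G` -/
def FF (w : Fin 3 → K) (G : Submodule k V) (D : ℤ) (σ : Finset (Fin 3)) : Submodule k V :=
  Submodule.span k {v | ∃ α : Fin 3 → ℤ, ∑ j, α j = - D ∧ (∀ j, j ∉ σ → 0 ≤ α j) ∧
    ∃ g ∈ G, v = mon w α • g}

end

section

variable {k K : Type} [Field k] [Field K] [Algebra k K]

/-- the differential form `u dv - v du` -/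
noncomputable def wed (k : Type) {K : Type} [Field k] [Field K] [Algebra k K] (u v : K) :
    Ω[K⁄k] := u • KaehlerDifferential.D k K v - v • KaehlerDifferential.D k K u

/-- the span of the forms `b (u dv - v du)` with `u, v` in `W` and `b` in `W ^ n` -/
noncomputable def MM (W : Submodule k K) (n : ℕ) : Submodule k (Ω[K⁄k]) :=
  W ^ n • Submodule.span k {η | ∃ u ∈ W, ∃ v ∈ W, η = wed k u v}

/-- differential forms regular on the chart `y ≠ 0` -/
noncomputable def LocF (W : Submodule k K) (y : K) : Submodule k (Ω[K⁄k]) :=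
  Submodule.span k {η | ∃ n, ∃ b ∈ W ^ n, ∃ u ∈ W, ∃ v ∈ W, η = (b / y ^ (n + 2)) • wed k u v}

/-- the logarithmic differential form of `s` with partition `q` -/
noncomputable def dl (k : Type) {K : Type} [Field k] [Field K] [Algebra k K] (s : Sys K)
    (q : Fin s.r → K) : Ω[K⁄k] := ∑ i, q i • KaehlerDifferential.D k K (s.s i)

end

section

variable {k L : Type} [Field k] [Field L] [Algebra k L]

/-- the `O_P`-span of `D(O_P)` -/
def Reg (P : DV k L) (D : Derivation k L L) : Submodule P.vs L :=
  Submodule.span P.vs {z | ∃ a : L, 0 ≤ P.ord a ∧ z = D a}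

/-- `g` is congruent to the constant `c` modulo the maximal ideal of `P` -/
def Cong (P : DV k L) (g : L) (c : k) : Prop :=
  g = algebraMap k L c ∨ 0 < P.ord (g - algebraMap k L c)

end

end FR
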